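import Pool.Agent.PGap.Vals
import Pool.Agent.BakerGap.Pigeon

/-! G4. The auxiliary function. -/

set_option autoImplicit false

namespace Pool.Agent.PGap

open Finset

variable {K : Type} [Field K] [NumberField K]

/-- **Construction of the coefficients** by the pigeonhole principle (`BakerGap.pigeon` with
`P = 2^b`, `Q = 2^((d+1)(a+b+xA+4hBS)+3)`, one embedding, and `liouville_arch`). -/
theorem exists_aux (A0 h a b n x S d : ℕ) (hA0 : 0 < A0) (hA0h : A0 ≤ 2 ^ h)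
    (hd : Module.finrank ℚ K ≤ d) {A B : ℕ} (hAB : A * B ≤ 2 ^ a) (γ κ : K) (hγ : Sz A0 h γ)
    (hκ : Sz A0 h κ) (hS : 0 < S) (hx : S + n * S ≤ 2 ^ x)
    (hb : a + x * A + 4 * h * (B * S) + 1 ≤ b) (hcard : 8 * (d + 2) * S ^ 2 ≤ A * B) :
    ∃ p : Fin A × Fin B → ℤ, p ≠ 0 ∧ (∀ i, |p i| ≤ 2 ^ b) ∧
      ∀ s1 < S, ∀ s2 < S, val p γ κ n s1 s2 = 0 := by
  classical
  obtain ⟨φ⟩ : Nonempty (K →+* ℂ) := inferInstance
  set E : ℕ := a + b + x * A + 4 * h * (B * S) with hE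
  have hABpos : 0 < A * B := by
    have h1 : 0 < 8 * (d + 2) * S ^ 2 := by positivity
    omega
  let c : (Fin S × Fin S) → Fin A × Fin B → ℂ := fun e i =>
    (((e.1 : ℕ) + n * (e.2 : ℕ) : ℕ) : ℂ) ^ (i.1 : ℕ) *
      (φ γ ^ (e.1 : ℕ) * φ κ ^ (e.2 : ℕ)) ^ (i.2 : ℕ)
  have h2h : (1 : ℝ) ≤ 2 ^ h := one_le_pow₀ (by norm_num)
  have hpw : ∀ (z : ℂ) (s : Fin S) (i : Fin B), ‖z‖ ≤ 2 ^ h →
      (‖z‖ ^ (s : ℕ)) ^ (i : ℕ) ≤ 2 ^ (h * (B * S)) := by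
    intro z s i hz
    rw [← pow_mul]
    calc ‖z‖ ^ ((s : ℕ) * (i : ℕ)) ≤ (2 ^ h) ^ ((s : ℕ) * (i : ℕ)) :=
          pow_le_pow_left₀ (norm_nonneg _) hz _
      _ ≤ (2 ^ h) ^ (B * S) := by
          apply pow_le_pow_right₀ h2h
          rw [mul_comm B S]
          exact Nat.mul_le_mul s.2.le i.2.le
      _ = 2 ^ (h * (B * S)) := by rw [← pow_mul]
  have hc : ∀ e i, ‖c e i‖ ≤ 2 ^ (x * A + 2 * h * (B * S)) := by
    intro e i
    show ‖(((e.1 : ℕ) + n * (e.2 : ℕ) : ℕ) : ℂ) ^ (i.1 : ℕ) *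
      (φ γ ^ (e.1 : ℕ) * φ κ ^ (e.2 : ℕ)) ^ (i.2 : ℕ)‖ ≤ _
    rw [norm_mul, norm_pow, norm_pow, norm_mul, norm_pow, norm_pow, Complex.norm_natCast, mul_pow]
    have h1 : (((e.1 : ℕ) + n * (e.2 : ℕ) : ℕ) : ℝ) ≤ 2 ^ x := by
      have h3 : (e.1 : ℕ) + n * (e.2 : ℕ) ≤ 2 ^ x :=
        (Nat.add_le_add e.1.2.le (Nat.mul_le_mul_left n e.2.2.le)).trans hx
      exact_mod_cast h3
    have h2 : (((e.1 : ℕ) + n * (e.2 : ℕ) : ℕ) : ℝ) ^ (i.1 : ℕ) ≤ 2 ^ (x * A) := by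
      calc (((e.1 : ℕ) + n * (e.2 : ℕ) : ℕ) : ℝ) ^ (i.1 : ℕ) ≤ (2 ^ x) ^ (i.1 : ℕ) :=
            pow_le_pow_left₀ (Nat.cast_nonneg _) h1 _
        _ ≤ (2 ^ x) ^ A := pow_le_pow_right₀ (one_le_pow₀ (by norm_num)) i.1.2.le
        _ = 2 ^ (x * A) := by rw [← pow_mul]
    have h3 := hpw (φ γ) e.1 i.2 (hγ.2 φ)
    have h4 := hpw (φ κ) e.2 i.2 (hκ.2 φ)
    have h5 : (2 : ℝ) ^ (x * A + 2 * h * (B * S)) =
        2 ^ (x * A) * (2 ^ (h * (B * S)) * 2 ^ (h * (B * S))) := by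
      rw [← pow_add, ← pow_add]
      congr 1
      ring
    rw [h5]
    gcongr
  have hQ : (0 : ℕ) < 2 ^ ((d + 1) * E + 3) := by positivity
  have hcd : (2 ^ ((d + 1) * E + 3) + 1) ^ (2 * Fintype.card (Fin S × Fin S)) <
      (2 ^ b + 1) ^ Fintype.card (Fin A × Fin B) := by
    rw [Fintype.card_prod, Fintype.card_prod, Fintype.card_fin, Fintype.card_fin,
      Fintype.card_fin]
    have h1 : 2 ^ ((d + 1) * E + 3) + 1 ≤ 2 ^ ((d + 1) * E + 4) := by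
      rw [pow_succ 2 ((d + 1) * E + 3)]
      have := Nat.one_le_two_pow (n := (d + 1) * E + 3)
      omega
    have h2 : (d + 1) * E + 4 ≤ 4 * (d + 2) * b := by
      have h3 : E + 1 ≤ 2 * b := by omega
      have h4 : 1 ≤ b := by omega
      have h5 : (d + 1) * (E + 1) ≤ (d + 1) * (2 * b) := Nat.mul_le_mul_left _ h3
      nlinarith
    calc (2 ^ ((d + 1) * E + 3) + 1) ^ (2 * (S * S))
        ≤ (2 ^ ((d + 1) * E + 4)) ^ (2 * (S * S)) := Nat.pow_le_pow_left h1 _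
      _ = 2 ^ (((d + 1) * E + 4) * (2 * (S * S))) := by rw [← pow_mul]
      _ ≤ 2 ^ (b * (A * B)) := by
          apply Nat.pow_le_pow_right (by norm_num)
          calc ((d + 1) * E + 4) * (2 * (S * S)) ≤ (4 * (d + 2) * b) * (2 * (S * S)) :=
                Nat.mul_le_mul_right _ h2
            _ = b * (8 * (d + 2) * S ^ 2) := by ring
            _ ≤ b * (A * B) := Nat.mul_le_mul_left _ hcard
      _ = (2 ^ b) ^ (A * B) := by rw [← pow_mul]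
      _ < (2 ^ b + 1) ^ (A * B) := Nat.pow_lt_pow_left (Nat.lt_succ_self _) hABpos.ne'
  obtain ⟨p, hp0, hpb, hps⟩ := BakerGap.pigeon c (2 ^ b) (2 ^ ((d + 1) * E + 3)) hQ
    (2 ^ (x * A + 2 * h * (B * S))) (by positivity) hc
    (by rw [Fintype.card_prod, Fintype.card_fin, Fintype.card_fin]; exact hABpos)
    (by positivity) hcd
  have hpb' : ∀ i, |p i| ≤ 2 ^ b := by
    intro i
    have h1 := hpb i
    push_cast at h1
    exact_mod_cast h1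
  refine ⟨p, hp0, hpb', fun s1 hs1 s2 hs2 => ?_⟩
  by_contra hne
  have hx' : s1 + n * s2 ≤ 2 ^ x :=
    (Nat.add_le_add hs1.le (Nat.mul_le_mul_left n hs2.le)).trans hx
  have hL := liouville_arch A0 h a b n x S S d hA0 hA0h hd hAB γ κ hγ hκ p hpb' s1 s2 hs1.le
    hs2.le hx' φ hne
  have hL' : 1 ≤ ‖φ (val p γ κ n s1 s2)‖ * 2 ^ (d * E) := by
    have e1 : a + b + x * A + 2 * h * (B * (S + S)) = E := by
      rw [hE]
      ring
    rwa [e1] at hL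
  have h1 := hps (⟨s1, hs1⟩, ⟨s2, hs2⟩)
  have h2 : ∑ k, (p k : ℂ) * c (⟨s1, hs1⟩, ⟨s2, hs2⟩) k = φ (val p γ κ n s1 s2) := by
    unfold val
    rw [map_sum]
    refine Finset.sum_congr rfl fun k _ => ?_
    rw [map_mul, map_mul, map_intCast, map_pow, map_natCast, map_pow, map_mul, map_pow, map_pow]
    show _ * ((((s1 : ℕ) + n * (s2 : ℕ) : ℕ) : ℂ) ^ (k.1 : ℕ) *
      (φ γ ^ (s1 : ℕ) * φ κ ^ (s2 : ℕ)) ^ (k.2 : ℕ)) = _
    ring
  rw [h2, Fintype.card_prod, Fintype.card_fin, Fintype.card_fin] at h1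
  have hABr : ((A * B : ℕ) : ℝ) ≤ 2 ^ a := by exact_mod_cast hAB
  have h3 : ‖φ (val p γ κ n s1 s2)‖ ≤ 2 ^ (E + 2) / 2 ^ ((d + 1) * E + 3) := by
    refine h1.trans ?_
    push_cast
    push_cast at hABr
    apply div_le_div_of_nonneg_right _ (by positivity)
    calc 4 * ((A : ℝ) * B * (2 ^ b * 2 ^ (x * A + 2 * h * (B * S))))
        ≤ 4 * (2 ^ a * (2 ^ b * 2 ^ (x * A + 2 * h * (B * S)))) := by gcongr
      _ = 2 ^ (a + b + x * A + 2 * h * (B * S) + 2) := by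
          rw [show (4 : ℝ) = 2 ^ 2 by norm_num, ← pow_add, ← pow_add, ← pow_add]
          congr 1
          ring
      _ ≤ 2 ^ (E + 2) := by
          apply pow_le_pow_right₀ (by norm_num)
          rw [hE]
          have : 2 * h * (B * S) ≤ 4 * h * (B * S) := Nat.mul_le_mul_right _ (by omega)
          omega
  have h4 : ‖φ (val p γ κ n s1 s2)‖ * 2 ^ (d * E) ≤ 1 / 2 := by
    calc ‖φ (val p γ κ n s1 s2)‖ * 2 ^ (d * E)
        ≤ 2 ^ (E + 2) / 2 ^ ((d + 1) * E + 3) * 2 ^ (d * E) := by gcongr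
      _ = 1 / 2 := by
          have e2 : (2 : ℝ) ^ ((d + 1) * E + 3) = 2 ^ (E + 2) * 2 ^ (d * E) * 2 := by
            rw [← pow_add, ← pow_succ]
            congr 1
            ring
          rw [e2]
          field_simp
  linarith

end Pool.Agent.PGap
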