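import Mathlib

/-! Nonarchimedean absolute values of a number field, sizes, and the values of the auxiliary
function of Schneider's method. -/

set_option autoImplicit false

namespace Pool.Agent.PGap

open Finset

/-- A nonarchimedean absolute value of a number field above the prime `p`, normalised so that
Liouville's inequality holds with the norm. -/
structure PAbs (K : Type) [Field K] [NumberField K] where
  ν : AbsoluteValue K ℝ
  ultra : ∀ x y : K, ν (x + y) ≤ max (ν x) (ν y)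
  le_one : ∀ x : K, IsIntegral ℤ x → ν x ≤ 1
  liou : ∀ x : K, IsIntegral ℤ x → x ≠ 0 → 1 ≤ ν x * |((Algebra.norm ℚ x : ℚ) : ℝ)|
  p : ℕ
  prime : p.Prime
  small : ν (p : K) ≤ 1 / 2
  gap : ∀ x : K, 1 < ν x → 2 ≤ ν x

/-- `z` has denominator `A0` and conjugates of modulus at most `2 ^ h`. -/
def Sz {K : Type} [Field K] [NumberField K] (A0 h : ℕ) (z : K) : Prop :=
  IsIntegral ℤ ((A0 : K) * z) ∧ ∀ τ : K →+* ℂ, ‖τ z‖ ≤ 2 ^ h

/-- The value `∑ p_(a,b) (s1 + n s2)^a (γ^s1 κ^s2)^b`. -/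
noncomputable def val {K : Type} [Field K] {A B : ℕ} (p : Fin A × Fin B → ℤ) (γ κ : K)
    (n s1 s2 : ℕ) : K :=
  ∑ i, (p i : K) * ((s1 + n * s2 : ℕ) : K) ^ (i.1 : ℕ) * (γ ^ s1 * κ ^ s2) ^ (i.2 : ℕ)

end Pool.Agent.PGap
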