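import Mathlib

/-! G1. Interpolation at integers for a nonarchimedean absolute value. -/

set_option autoImplicit false

namespace Pool.Agent.PGap

open Finset Polynomial

section Aux

variable {K : Type} [Field K]

private lemma interp_sum {ι : Type*} (ν : AbsoluteValue K ℝ)
    (ultra : ∀ x y : K, ν (x + y) ≤ max (ν x) (ν y)) (s : Finset ι) (f : ι → K) {M : ℝ}
    (hM : 0 ≤ M) (h : ∀ i ∈ s, ν (f i) ≤ M) : ν (∑ i ∈ s, f i) ≤ M := by
  classical
  induction s using Finset.induction_on with
  | empty => simpa using hM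
  | insert a s ha ih =>
    rw [Finset.sum_insert ha]
    exact (ultra _ _).trans (max_le (h a (Finset.mem_insert_self a s))
      (ih fun i hi => h i (Finset.mem_insert_of_mem hi)))

/-- the difference of a polynomial and its remainder, evaluated at a point -/
private noncomputable def rem (ω : K[X]) (z : K) (g : K[X]) : K := (g - g %ₘ ω).eval z

private lemma rem_add (ω : K[X]) (z : K) (g h : K[X]) :
    rem ω z (g + h) = rem ω z g + rem ω z h := by
  simp only [rem, add_modByMonic, eval_sub, eval_add]
  ring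

private lemma rem_C_mul (ω : K[X]) (z c : K) (g : K[X]) :
    rem ω z (C c * g) = c * rem ω z g := by
  simp only [rem, ← smul_eq_C_mul, smul_modByMonic, eval_sub, eval_smul, smul_eq_mul]
  ring

private lemma rem_sum {ι : Type*} (ω : K[X]) (z : K) (s : Finset ι) (f : ι → K[X]) :
    rem ω z (∑ i ∈ s, f i) = ∑ i ∈ s, rem ω z (f i) := by
  classical
  induction s using Finset.induction_on with
  | empty => simp [rem]
  | insert a s ha ih => rw [Finset.sum_insert ha, Finset.sum_insert ha, rem_add, ih]

end Aux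

/-- **The nonarchimedean Schwarz lemma at integers.** Divide `g` by the monic polynomial
`ω = ∏ (X - z)` over `z ∈ Z`, which has integer coefficients: `X^k = q_k ω + r_k` with integer
polynomials, `q_k = 0` for `k < card Z`, so `g - g %ₘ ω` is small at integers; the remainder is
the Lagrange interpolation polynomial of `g` at `Z`. -/
theorem interp {K : Type} [Field K] [CharZero K] (ν : AbsoluteValue K ℝ)
    (ultra : ∀ x y : K, ν (x + y) ≤ max (ν x) (ν y)) (hint : ∀ m : ℤ, ν (m : K) ≤ 1)
    (Z : Finset ℤ) (g : K[X]) (δ ε B : ℝ) (hδ : 0 ≤ δ) (hε : 0 ≤ ε) (hB : 1 ≤ B)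
    (hg : ∀ k, Z.card ≤ k → ν (g.coeff k) ≤ δ) (hz : ∀ z ∈ Z, ν (g.eval (z : K)) ≤ ε)
    (hsep : ∀ z ∈ Z, ∀ z' ∈ Z, z ≠ z' → 1 ≤ ν ((z - z' : ℤ) : K) * B) (z : ℤ) :
    ν (g.eval (z : K)) ≤ max δ (ε * B ^ Z.card) := by
  classical
  set ω₀ : ℤ[X] := ∏ y ∈ Z, (X - C y) with hω₀
  have hm₀ : ω₀.Monic := monic_prod_of_monic _ _ fun y _ => monic_X_sub_C y
  set ω : K[X] := ω₀.map (Int.castRingHom K) with hω
  have hm : ω.Monic := hm₀.map _
  have hdeg : ω.degree = (Z.card : ℕ) := by
    rw [hω, hm₀.degree_map, hω₀, degree_prod, Finset.sum_congr rfl fun y _ => degree_X_sub_C y]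
    simp
  have hωe : ω = ∏ y ∈ Z, (X - C (y : K)) := by
    rw [hω, hω₀, Polynomial.map_prod]
    exact Finset.prod_congr rfl fun y _ => by simp
  have hroot : ∀ y ∈ Z, ω.eval (y : K) = 0 := by
    intro y hy
    rw [hωe, eval_prod]
    exact Finset.prod_eq_zero hy (by simp)
  -- the quotient part
  have h1 : ν (rem ω z g) ≤ δ := by
    rw [g.as_sum_range_C_mul_X_pow, rem_sum]
    refine interp_sum ν ultra _ _ hδ fun k _ => ?_
    rw [rem_C_mul, map_mul]
    by_cases hk : Z.card ≤ k
    · have e1 : rem ω z (X ^ k) = (((X ^ k - X ^ k %ₘ ω₀ : ℤ[X]).eval z : ℤ) : K) := by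
        have e2 : (X ^ k : K[X]) - X ^ k %ₘ ω =
            (X ^ k - X ^ k %ₘ ω₀ : ℤ[X]).map (Int.castRingHom K) := by
          rw [Polynomial.map_sub, map_modByMonic _ hm₀, Polynomial.map_pow, map_X]
        rw [rem, e2, eval_intCast_map]
        rfl
      rw [e1]
      calc ν (g.coeff k) * ν _ ≤ δ * 1 :=
            mul_le_mul (hg k hk) (hint _) (ν.nonneg _) hδ
        _ = δ := mul_one δ
    · have e1 : rem ω z (X ^ k) = 0 := by
        have e2 : (X ^ k : K[X]) %ₘ ω = X ^ k := by
          rw [modByMonic_eq_self_iff hm, hdeg, degree_X_pow]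
          exact_mod_cast not_le.1 hk
        rw [rem, e2, sub_self, eval_zero]
      rw [e1, map_zero, mul_zero]
      exact hδ
  -- the remainder
  have h2 : ν ((g %ₘ ω).eval (z : K)) ≤ ε * B ^ Z.card := by
    have hinj : Set.InjOn (fun y : ℤ => (y : K)) (Z : Set ℤ) := fun a _ b _ h => Int.cast_injective h
    have hev : ∀ y ∈ Z, eval (y : K) (g %ₘ ω) = g.eval (y : K) := by
      intro y hy
      have e1 := congrArg (eval (y : K)) (modByMonic_add_div g ω)
      rw [eval_add, eval_mul, hroot y hy, zero_mul, add_zero] at e1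
      exact e1
    have hlt : (g %ₘ ω).degree < (Z.card : ℕ) := by
      rw [← hdeg]
      exact degree_modByMonic_lt _ hm
    rw [Lagrange.eq_interpolate_of_eval_eq (s := Z) (v := fun y : ℤ => (y : K))
      (fun y : ℤ => g.eval (y : K)) hinj hlt hev,
      Lagrange.interpolate_apply, eval_finsetSum]
    have hB0 : 0 ≤ B := zero_le_one.trans hB
    refine interp_sum ν ultra _ _ (by positivity) fun y hy => ?_
    rw [eval_mul, eval_C, map_mul]
    refine mul_le_mul (hz y hy) ?_ (ν.nonneg _) hε
    rw [Lagrange.basis, eval_prod, map_prod]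
    calc ∏ y' ∈ Z.erase y, ν (eval (z : K) (Lagrange.basisDivisor (y : K) (y' : K)))
        ≤ ∏ _y' ∈ Z.erase y, B := by
          refine Finset.prod_le_prod (fun _ _ => ν.nonneg _) fun y' hy' => ?_
          rw [Finset.mem_erase] at hy'
          have e1 := hsep y hy y' hy'.2 (Ne.symm hy'.1)
          have e2 : ((y - y' : ℤ) : K) = (y : K) - (y' : K) := by push_cast; ring
          rw [e2] at e1
          have e3 : 0 < ν ((y : K) - (y' : K)) := by
            by_contra hcon
            have : ν ((y : K) - (y' : K)) = 0 := le_antisymm (not_lt.1 hcon) (ν.nonneg _)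
            rw [this, zero_mul] at e1
            linarith
          rw [Lagrange.basisDivisor, eval_mul, eval_C, eval_sub, eval_X, eval_C, map_mul,
            map_inv₀]
          have e4 : ν ((z : K) - (y' : K)) ≤ 1 := by
            have := hint (z - y')
            push_cast at this
            exact this
          calc (ν ((y : K) - (y' : K)))⁻¹ * ν ((z : K) - (y' : K)) ≤
                (ν ((y : K) - (y' : K)))⁻¹ * 1 :=
                mul_le_mul_of_nonneg_left e4 (by positivity)
            _ ≤ B := by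
                rw [mul_one, inv_le_iff_one_le_mul₀ e3]
                linarith [mul_comm (ν ((y : K) - (y' : K))) B]
      _ = B ^ (Z.erase y).card := by rw [Finset.prod_const]
      _ ≤ B ^ Z.card := pow_le_pow_right₀ hB (Finset.card_le_card (Finset.erase_subset _ _))
  have h3 : g.eval (z : K) = rem ω z g + (g %ₘ ω).eval (z : K) := by
    rw [rem, eval_sub]
    ring
  rw [h3]
  exact (ultra _ _).trans (max_le_max h1 h2)

end Pool.Agent.PGap
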