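import Pool.Agent.PGap.Defs

/-! G2. Powers as polynomials in the exponent. -/

set_option autoImplicit false

namespace Pool.Agent.PGap

open Finset Polynomial

variable {K : Type} [Field K] [NumberField K] (V : PAbs K)

theorem PAbs.int_le (m : ℤ) : V.ν (m : K) ≤ 1 := by
  apply V.le_one
  have h : (m : K) = algebraMap ℤ K m := by simp
  rw [h]
  exact isIntegral_algebraMap

private theorem PAbs.taylor_p_pos : 0 < V.ν (V.p : K) :=
  V.ν.pos (Nat.cast_ne_zero.2 V.prime.ne_zero)

private theorem PAbs.taylor_one : V.ν (1 : K) = 1 := map_one V.ν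

/-- integers prime to `p` have absolute value one (Bezout) -/
theorem PAbs.coprime (m : ℤ) (h : ¬ (V.p : ℤ) ∣ m) : V.ν (m : K) = 1 := by
  refine le_antisymm (V.int_le m) ?_
  by_contra hlt
  push Not at hlt
  have hc : IsCoprime (V.p : ℤ) m :=
    (Prime.coprime_iff_not_dvd (Nat.prime_iff_prime_int.1 V.prime)).2 h
  obtain ⟨a, b, hab⟩ := hc
  have h1 : (a : K) * (V.p : K) + (b : K) * (m : K) = 1 := by
    have := congrArg (Int.cast : ℤ → K) hab
    push_cast at this
    exact this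
  have h2 := V.ultra ((a : K) * (V.p : K)) ((b : K) * (m : K))
  rw [h1, V.taylor_one, map_mul, map_mul] at h2
  have h3 : V.ν (a : K) * V.ν (V.p : K) < 1 := by
    have := mul_le_mul (V.int_le a) V.small (V.ν.nonneg _) zero_le_one
    linarith
  have h4 : V.ν (b : K) * V.ν (m : K) < 1 := by
    have := mul_le_mul (V.int_le b) le_rfl (V.ν.nonneg (m : K)) zero_le_one
    linarith
  have h5 := max_lt h3 h4
  linarith

/-- `|t!| ≥ |p|^t`, as `t!` is divisible by less than `p^t` exactly -/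
theorem PAbs.factorial_ge (t : ℕ) : V.ν (V.p : K) ^ t ≤ V.ν ((t.factorial : ℕ) : K) := by
  have : Fact V.p.Prime := ⟨V.prime⟩
  obtain ⟨m, hm⟩ := Nat.ordProj_dvd (t.factorial) V.p
  have hk : t.factorial.factorization V.p ≤ t := by
    have h1 := sub_one_mul_padicValNat_factorial (p := V.p) t
    have h2 : 1 ≤ V.p - 1 := by
      have := V.prime.two_le
      omega
    rw [Nat.factorization_def _ V.prime]
    calc padicValNat V.p t.factorial = 1 * padicValNat V.p t.factorial := (one_mul _).symm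
      _ ≤ (V.p - 1) * padicValNat V.p t.factorial := Nat.mul_le_mul_right _ h2
      _ ≤ t := by rw [h1]; exact Nat.sub_le _ _
  have hmp : ¬ (V.p : ℤ) ∣ (m : ℤ) := by
    rw [Int.natCast_dvd_natCast]
    rintro ⟨c, rfl⟩
    have h3 : V.p ^ (t.factorial.factorization V.p + 1) ∣ t.factorial := by
      refine ⟨c, ?_⟩
      rw [pow_succ, mul_assoc]
      exact hm
    exact Nat.pow_succ_factorization_not_dvd (Nat.factorial_ne_zero t) V.prime h3
  have h4 : V.ν ((t.factorial : ℕ) : K) = V.ν (V.p : K) ^ (t.factorial.factorization V.p) := by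
    conv_lhs => rw [hm]
    rw [Nat.cast_mul, Nat.cast_pow, map_mul, map_pow]
    have h5 := V.coprime (m : ℤ) hmp
    rw [Int.cast_natCast] at h5
    rw [h5, mul_one]
  rw [h4]
  exact pow_le_pow_of_le_one V.taylor_p_pos.le (V.small.trans (by norm_num)) hk

/-- Liouville for integers -/
theorem PAbs.int_ge (m : ℤ) (hm : m ≠ 0) (d : ℕ) (hd : Module.finrank ℚ K ≤ d) (X : ℝ)
    (hX : |(m : ℝ)| ≤ X) : 1 ≤ V.ν (m : K) * X ^ d := by
  have hi : IsIntegral ℤ (m : K) := by
    have h : (m : K) = algebraMap ℤ K m := by simp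
    rw [h]
    exact isIntegral_algebraMap
  have h1 := V.liou (m : K) hi (Int.cast_ne_zero.2 hm)
  have h2 : Algebra.norm ℚ (m : K) = (m : ℚ) ^ Module.finrank ℚ K := by
    have h : (m : K) = algebraMap ℚ K (m : ℚ) := by simp
    rw [h, Algebra.norm_algebraMap]
  have h3 : (1 : ℝ) ≤ |(m : ℝ)| := by
    have := Int.one_le_abs hm
    exact_mod_cast this
  refine h1.trans (mul_le_mul_of_nonneg_left ?_ (V.ν.nonneg _))
  rw [h2]
  push_cast
  rw [abs_pow]
  calc |(m : ℝ)| ^ Module.finrank ℚ K ≤ |(m : ℝ)| ^ d := pow_le_pow_right₀ h3 hd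
    _ ≤ X ^ d := pow_le_pow_left₀ (abs_nonneg _) hX d

private theorem PAbs.taylor_sum {ι : Type*} (s : Finset ι) (f : ι → K) (c : ℝ) (hc : 0 ≤ c)
    (h : ∀ i ∈ s, V.ν (f i) ≤ c) : V.ν (∑ i ∈ s, f i) ≤ c := by
  classical
  induction s using Finset.induction_on with
  | empty => simpa using hc
  | insert a s ha ih =>
    rw [Finset.sum_insert ha]
    refine (V.ultra _ _).trans (max_le (h a (Finset.mem_insert_self _ _)) ?_)
    exact ih fun i hi => h i (Finset.mem_insert_of_mem hi)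

/-- `(1 + x)^z = ∑_{t ≤ T} x^t / t! (z)_t` for `z ≤ T` (`descPochhammer`, integer coefficients). -/
theorem exists_taylor (x : K) (hx : V.ν x ≤ V.ν (V.p : K) ^ 2) (T : ℕ) :
    ∃ g : K[X], (∀ k, V.ν (g.coeff k) ≤ (1 / 2) ^ k) ∧
      ∀ z : ℕ, z ≤ T → g.eval (z : K) = (1 + x) ^ z := by
  refine ⟨∑ t ∈ range (T + 1), C (x ^ t / (t.factorial : K)) * descPochhammer K t, ?_, ?_⟩
  · intro k
    rw [finsetSum_coeff]
    refine V.taylor_sum _ _ _ (by positivity) fun t _ => ?_
    rw [coeff_C_mul, map_mul]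
    by_cases hk : k ≤ t
    · have h1 : V.ν ((descPochhammer K t).coeff k) ≤ 1 := by
        rw [← descPochhammer_map (Int.castRingHom K) t, coeff_map]
        exact V.int_le _
      have h2 : V.ν (x ^ t / (t.factorial : K)) ≤ (1 / 2) ^ k := by
        have hf : 0 < V.ν ((t.factorial : ℕ) : K) :=
          V.ν.pos (Nat.cast_ne_zero.2 (Nat.factorial_ne_zero t))
        rw [map_div₀, map_pow, div_le_iff₀ hf]
        calc V.ν x ^ t ≤ (V.ν (V.p : K) ^ 2) ^ t := pow_le_pow_left₀ (V.ν.nonneg _) hx t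
          _ = V.ν (V.p : K) ^ t * V.ν (V.p : K) ^ t := by rw [← pow_mul, ← pow_add]; congr 1; ring
          _ ≤ (1 / 2) ^ t * V.ν ((t.factorial : ℕ) : K) :=
            mul_le_mul (pow_le_pow_left₀ V.taylor_p_pos.le V.small t) (V.factorial_ge t)
              (by have := V.taylor_p_pos; positivity) (by positivity)
          _ ≤ (1 / 2) ^ k * V.ν ((t.factorial : ℕ) : K) :=
            mul_le_mul_of_nonneg_right (pow_le_pow_of_le_one (by norm_num) (by norm_num) hk) hf.le
      calc V.ν (x ^ t / (t.factorial : K)) * V.ν ((descPochhammer K t).coeff k)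
          ≤ (1 / 2) ^ k * 1 := mul_le_mul h2 h1 (V.ν.nonneg _) (by positivity)
        _ = (1 / 2) ^ k := mul_one _
    · rw [coeff_eq_zero_of_natDegree_lt (by rw [descPochhammer_natDegree]; omega), map_zero,
        mul_zero]
      positivity
  · intro z hz
    rw [eval_finsetSum, add_comm 1 x, add_pow]
    rw [← Finset.sum_subset (Finset.range_subset_range.2 (Nat.succ_le_succ hz))]
    · refine Finset.sum_congr rfl fun t _ => ?_
      rw [eval_mul, eval_C, descPochhammer_eval_eq_descFactorial, one_pow, mul_one,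
        Nat.descFactorial_eq_factorial_mul_choose, Nat.cast_mul]
      have hf : ((t.factorial : ℕ) : K) ≠ 0 := Nat.cast_ne_zero.2 (Nat.factorial_ne_zero t)
      field_simp
    · intro t _ ht
      have h1 : z < t := by
        by_contra hcon
        exact ht (Finset.mem_range.2 (by omega))
      rw [eval_mul, descPochhammer_eval_eq_descFactorial, Nat.descFactorial_of_lt h1,
        Nat.cast_zero, mul_zero]

/-- The function `∑ p_(a,b) z^a γ^(bz)` as a polynomial in `z ≤ T`. -/
theorem exists_fpoly (γ : K) (hγ : V.ν (γ - 1) ≤ V.ν (V.p : K) ^ 2) (A B T : ℕ)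
    (p : Fin A × Fin B → ℤ) :
    ∃ g : K[X], (∀ k, V.ν (g.coeff k) * 2 ^ k ≤ 2 ^ A) ∧
      ∀ z : ℕ, z ≤ T → g.eval (z : K) =
        ∑ i, (p i : K) * (z : K) ^ (i.1 : ℕ) * (γ ^ z) ^ (i.2 : ℕ) := by
  have hp1 : V.ν (V.p : K) ^ 2 ≤ 1 := by
    have := V.small
    have := V.taylor_p_pos
    nlinarith
  have hγ1 : V.ν γ ≤ 1 := by
    have h := V.ultra (γ - 1) 1
    rw [sub_add_cancel, V.taylor_one] at h
    exact h.trans (max_le (hγ.trans hp1) le_rfl)
  have hγb : ∀ b : ℕ, V.ν (γ ^ b - 1) ≤ V.ν (V.p : K) ^ 2 := by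
    intro b
    induction b with
    | zero =>
      rw [pow_zero, sub_self, map_zero]
      positivity
    | succ b ih =>
      have e : γ ^ (b + 1) - 1 = γ * (γ ^ b - 1) + (γ - 1) := by ring
      rw [e]
      refine (V.ultra _ _).trans (max_le ?_ hγ)
      rw [map_mul]
      calc V.ν γ * V.ν (γ ^ b - 1) ≤ 1 * V.ν (V.p : K) ^ 2 :=
            mul_le_mul hγ1 ih (V.ν.nonneg _) zero_le_one
        _ = _ := one_mul _
  choose g hg1 hg2 using fun b : ℕ => exists_taylor V (γ ^ b - 1) (hγb b) T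
  refine ⟨∑ i : Fin A × Fin B, C (p i : K) * (g i.2 * X ^ (i.1 : ℕ)), ?_, ?_⟩
  · intro k
    have h2 : (0 : ℝ) < 2 ^ k := by positivity
    rw [← le_div_iff₀ h2, finsetSum_coeff]
    refine V.taylor_sum _ _ _ (by positivity) fun i _ => ?_
    rw [coeff_C_mul, map_mul, coeff_mul_X_pow']
    split_ifs with hk
    · rw [le_div_iff₀ h2]
      have h3 := hg1 i.2 (k - i.1)
      have h4 : (1 / 2 : ℝ) ^ (k - (i.1 : ℕ)) * 2 ^ k = 2 ^ (i.1 : ℕ) := by
        obtain ⟨c, rfl⟩ := Nat.exists_eq_add_of_le hk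
        rw [Nat.add_sub_cancel_left, pow_add, one_div, inv_pow]
        have : (2 : ℝ) ^ c ≠ 0 := by positivity
        field_simp
      calc V.ν (p i : K) * V.ν ((g i.2).coeff (k - i.1)) * 2 ^ k
          ≤ 1 * (1 / 2) ^ (k - (i.1 : ℕ)) * 2 ^ k := by
            refine mul_le_mul_of_nonneg_right ?_ h2.le
            exact mul_le_mul (V.int_le _) h3 (V.ν.nonneg _) zero_le_one
        _ = 2 ^ (i.1 : ℕ) := by rw [one_mul, h4]
        _ ≤ 2 ^ A := pow_le_pow_right₀ (by norm_num) i.1.2.le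
    · rw [map_zero, mul_zero]
      positivity
  · intro z hz
    rw [eval_finsetSum]
    refine Finset.sum_congr rfl fun i _ => ?_
    rw [eval_mul, eval_C, eval_mul, hg2 _ z hz, eval_pow, eval_X, add_sub_cancel, ← pow_mul,
      ← pow_mul, mul_comm (i.2 : ℕ) z]
    ring

end Pool.Agent.PGap
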