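import Pool.Agent.PGap.Defs

/-! G3. Liouville's inequality for the values. -/

set_option autoImplicit false

namespace Pool.Agent.PGap

open Finset

variable {K : Type} [Field K] [NumberField K]

private theorem abs_norm (x : K) :
    |((Algebra.norm ℚ x : ℚ) : ℝ)| = ∏ σ : K →ₐ[ℚ] ℂ, ‖σ x‖ := by
  have h1 : ‖(algebraMap ℚ ℂ) (Algebra.norm ℚ x)‖ = ∏ σ : K →ₐ[ℚ] ℂ, ‖σ x‖ := by
    rw [Algebra.norm_eq_prod_embeddings ℚ ℂ x, norm_prod]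
  rw [← h1, eq_ratCast, ← Complex.ofReal_ratCast, Complex.norm_real, Real.norm_eq_abs]

/-- the product of the conjugates -/
theorem norm_le_pow (x : K) (W : ℝ) (hW : 1 ≤ W) (h : ∀ τ : K →+* ℂ, ‖τ x‖ ≤ W) (d : ℕ)
    (hd : Module.finrank ℚ K ≤ d) : |((Algebra.norm ℚ x : ℚ) : ℝ)| ≤ W ^ d := by
  rw [abs_norm]
  calc ∏ σ : K →ₐ[ℚ] ℂ, ‖σ x‖ ≤ ∏ _σ : K →ₐ[ℚ] ℂ, W :=
        Finset.prod_le_prod (fun _ _ => norm_nonneg _) fun σ _ => h (σ : K →+* ℂ)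
    _ = W ^ Module.finrank ℚ K := by
        rw [Finset.prod_const, Finset.card_univ, AlgHom.card]
    _ ≤ W ^ d := pow_le_pow_right₀ hW hd

private theorem norm_le_pow_one (x : K) (W : ℝ) (hW : 1 ≤ W) (h : ∀ τ : K →+* ℂ, ‖τ x‖ ≤ W)
    (d : ℕ) (hd : Module.finrank ℚ K ≤ d) (φ : K →+* ℂ) :
    |((Algebra.norm ℚ x : ℚ) : ℝ)| ≤ ‖φ x‖ * W ^ (d - 1) := by
  classical
  rw [abs_norm, ← Finset.mul_prod_erase Finset.univ _ (Finset.mem_univ φ.toRatAlgHom)]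
  refine mul_le_mul (le_of_eq rfl) ?_ (Finset.prod_nonneg fun _ _ => norm_nonneg _)
    (norm_nonneg _)
  calc ∏ σ ∈ Finset.univ.erase φ.toRatAlgHom, ‖σ x‖
      ≤ ∏ _σ ∈ Finset.univ.erase φ.toRatAlgHom, W :=
        Finset.prod_le_prod (fun _ _ => norm_nonneg _) fun σ _ => h (σ : K →+* ℂ)
    _ = W ^ (Module.finrank ℚ K - 1) := by
        rw [Finset.prod_const, Finset.card_erase_of_mem (Finset.mem_univ _), Finset.card_univ,
          AlgHom.card]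
    _ ≤ W ^ (d - 1) := pow_le_pow_right₀ hW (by omega)

section
variable (A0 h a b n x S1 S2 d : ℕ) (hA0 : 0 < A0) (hA0h : A0 ≤ 2 ^ h)
  (hd : Module.finrank ℚ K ≤ d) {A B : ℕ} (hAB : A * B ≤ 2 ^ a) (γ κ : K) (hγ : Sz A0 h γ)
  (hκ : Sz A0 h κ) (p : Fin A × Fin B → ℤ) (hp : ∀ i, |p i| ≤ 2 ^ b) (s1 s2 : ℕ) (hs1 : s1 ≤ S1)
  (hs2 : s2 ≤ S2) (hx : s1 + n * s2 ≤ 2 ^ x)

include hA0 hA0h hAB hγ hκ hp hs1 hs2 hx in
/-- the conjugates of `A0^(B(S1+S2)) val` -/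
theorem conj_val_le (τ : K →+* ℂ) : ‖τ ((A0 : K) ^ (B * (S1 + S2)) * val p γ κ n s1 s2)‖ ≤
    2 ^ (a + b + x * A + 2 * h * (B * (S1 + S2))) := by
  have h1 : ‖τ ((A0 : K) ^ (B * (S1 + S2)))‖ ≤ 2 ^ (h * (B * (S1 + S2))) := by
    rw [map_pow, map_natCast, norm_pow, Complex.norm_natCast, pow_mul (2 : ℝ)]
    exact pow_le_pow_left₀ (Nat.cast_nonneg _) (by exact_mod_cast hA0h) _
  have h2 : ∀ i : Fin A × Fin B, ‖τ ((p i : K) * ((s1 + n * s2 : ℕ) : K) ^ (i.1 : ℕ) *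
      (γ ^ s1 * κ ^ s2) ^ (i.2 : ℕ))‖ ≤ 2 ^ (b + x * A + h * (B * (S1 + S2))) := by
    intro i
    rw [map_mul, map_mul, map_intCast, map_pow, map_natCast, map_pow, map_mul, map_pow, map_pow,
      norm_mul, norm_mul, norm_pow, norm_pow, norm_mul, norm_pow, norm_pow]
    have e1 : ‖((p i : ℤ) : ℂ)‖ ≤ 2 ^ b := by
      rw [Complex.norm_intCast]
      exact_mod_cast hp i
    have e2 : ‖((s1 + n * s2 : ℕ) : ℂ)‖ ^ (i.1 : ℕ) ≤ 2 ^ (x * A) := by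
      rw [Complex.norm_natCast]
      calc ((s1 + n * s2 : ℕ) : ℝ) ^ (i.1 : ℕ) ≤ ((2 : ℝ) ^ x) ^ (i.1 : ℕ) :=
            pow_le_pow_left₀ (Nat.cast_nonneg _) (by exact_mod_cast hx) _
        _ = 2 ^ (x * i.1) := by rw [← pow_mul]
        _ ≤ 2 ^ (x * A) := pow_le_pow_right₀ (by norm_num) (Nat.mul_le_mul_left _ i.1.2.le)
    have e3 : (‖τ γ‖ ^ s1 * ‖τ κ‖ ^ s2) ^ (i.2 : ℕ) ≤ 2 ^ (h * (B * (S1 + S2))) := by
      have e4 : ‖τ γ‖ ^ s1 ≤ 2 ^ (h * s1) := by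
        rw [pow_mul]
        exact pow_le_pow_left₀ (norm_nonneg _) (hγ.2 τ) _
      have e5 : ‖τ κ‖ ^ s2 ≤ 2 ^ (h * s2) := by
        rw [pow_mul]
        exact pow_le_pow_left₀ (norm_nonneg _) (hκ.2 τ) _
      calc (‖τ γ‖ ^ s1 * ‖τ κ‖ ^ s2) ^ (i.2 : ℕ)
          ≤ ((2 : ℝ) ^ (h * s1) * 2 ^ (h * s2)) ^ (i.2 : ℕ) :=
            pow_le_pow_left₀ (by positivity) (mul_le_mul e4 e5 (by positivity) (by positivity)) _
        _ = 2 ^ (h * (s1 + s2) * i.2) := by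
            rw [← pow_add, ← pow_mul]
            congr 1
            ring
        _ ≤ 2 ^ (h * (B * (S1 + S2))) := by
            refine pow_le_pow_right₀ (by norm_num) ?_
            calc h * (s1 + s2) * i.2 ≤ h * (S1 + S2) * B :=
                  Nat.mul_le_mul (Nat.mul_le_mul_left _ (by omega)) i.2.2.le
              _ = h * (B * (S1 + S2)) := by ring
    calc ‖((p i : ℤ) : ℂ)‖ * ‖((s1 + n * s2 : ℕ) : ℂ)‖ ^ (i.1 : ℕ) *
          (‖τ γ‖ ^ s1 * ‖τ κ‖ ^ s2) ^ (i.2 : ℕ)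
        ≤ 2 ^ b * 2 ^ (x * A) * 2 ^ (h * (B * (S1 + S2))) :=
          mul_le_mul (mul_le_mul e1 e2 (by positivity) (by positivity)) e3 (by positivity)
            (by positivity)
      _ = 2 ^ (b + x * A + h * (B * (S1 + S2))) := by rw [← pow_add, ← pow_add]
  have h3 : ‖τ (val p γ κ n s1 s2)‖ ≤ 2 ^ (a + (b + x * A + h * (B * (S1 + S2)))) := by
    rw [val, map_sum]
    refine (norm_sum_le _ _).trans ((Finset.sum_le_card_nsmul _ _ _ fun i _ => h2 i).trans ?_)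
    rw [Finset.card_univ, Fintype.card_prod, Fintype.card_fin, Fintype.card_fin, nsmul_eq_mul,
      pow_add (2 : ℝ) a]
    exact mul_le_mul_of_nonneg_right (by exact_mod_cast hAB) (by positivity)
  rw [map_mul, norm_mul]
  calc ‖τ ((A0 : K) ^ (B * (S1 + S2)))‖ * ‖τ (val p γ κ n s1 s2)‖
      ≤ 2 ^ (h * (B * (S1 + S2))) * 2 ^ (a + (b + x * A + h * (B * (S1 + S2)))) :=
        mul_le_mul h1 h3 (norm_nonneg _) (by positivity)
    _ = 2 ^ (a + b + x * A + 2 * h * (B * (S1 + S2))) := by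
        rw [← pow_add]
        congr 1
        ring

include hA0 hγ hκ hs1 hs2 in
theorem isIntegral_val : IsIntegral ℤ ((A0 : K) ^ (B * (S1 + S2)) * val p γ κ n s1 s2) := by
  rw [val, Finset.mul_sum]
  refine IsIntegral.sum _ fun i _ => ?_
  have h1 : (s1 + s2) * (i.2 : ℕ) ≤ B * (S1 + S2) := by
    rw [mul_comm B]
    exact Nat.mul_le_mul (by omega) i.2.2.le
  obtain ⟨c, hc⟩ := Nat.exists_eq_add_of_le h1
  have h2 : (A0 : K) ^ (B * (S1 + S2)) * ((p i : K) * ((s1 + n * s2 : ℕ) : K) ^ (i.1 : ℕ) *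
      (γ ^ s1 * κ ^ s2) ^ (i.2 : ℕ)) = (p i : K) * ((s1 + n * s2 : ℕ) : K) ^ (i.1 : ℕ) *
      (A0 : K) ^ c * (((A0 : K) * γ) ^ s1 * ((A0 : K) * κ) ^ s2) ^ (i.2 : ℕ) := by
    rw [hc, pow_add, pow_mul, pow_add, mul_pow (A0 : K) γ, mul_pow (A0 : K) κ]
    ring
  rw [h2]
  have h3 : ∀ m : ℕ, IsIntegral ℤ ((m : ℕ) : K) := fun m => isIntegral_natCast m
  exact (((isIntegral_intCast _).mul ((h3 _).pow _)).mul ((h3 _).pow _)).mul
    (((hγ.1.pow _).mul (hκ.1.pow _)).pow _)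

include hA0 hA0h hd hAB hγ hκ hp hs1 hs2 hx in
/-- Liouville's inequality for the nonarchimedean absolute value. -/
theorem liouville_val (V : PAbs K) (h0 : val p γ κ n s1 s2 ≠ 0) :
    1 ≤ V.ν (val p γ κ n s1 s2) *
      2 ^ (d * (a + b + x * A + 2 * h * (B * (S1 + S2)))) := by
  have hA : (A0 : K) ≠ 0 := by exact_mod_cast hA0.ne'
  have h1 := isIntegral_val A0 h n S1 S2 hA0 γ κ hγ hκ p s1 s2 hs1 hs2
  have h2 := V.liou _ h1 (mul_ne_zero (pow_ne_zero _ hA) h0)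
  have h3 := norm_le_pow _ ((2 : ℝ) ^ (a + b + x * A + 2 * h * (B * (S1 + S2))))
    (one_le_pow₀ (by norm_num))
    (conj_val_le A0 h a b n x S1 S2 hA0 hA0h hAB γ κ hγ hκ p hp s1 s2 hs1 hs2 hx) d hd
  rw [← pow_mul, mul_comm _ d] at h3
  have h4 : V.ν ((A0 : K) ^ (B * (S1 + S2)) * val p γ κ n s1 s2) ≤
      V.ν (val p γ κ n s1 s2) := by
    rw [map_mul]
    exact mul_le_of_le_one_left (V.ν.nonneg _)
      (V.le_one _ ((isIntegral_natCast A0).pow _))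
  exact h2.trans (mul_le_mul h4 h3 (abs_nonneg _) (V.ν.nonneg _))

include hA0 hA0h hd hAB hγ hκ hp hs1 hs2 hx in
/-- Liouville's inequality for one embedding. -/
theorem liouville_arch (φ : K →+* ℂ) (h0 : val p γ κ n s1 s2 ≠ 0) :
    1 ≤ ‖φ (val p γ κ n s1 s2)‖ *
      2 ^ (d * (a + b + x * A + 2 * h * (B * (S1 + S2)))) := by
  have hA : (A0 : K) ≠ 0 := by exact_mod_cast hA0.ne'
  have h1 := isIntegral_val A0 h n S1 S2 hA0 γ κ hγ hκ p s1 s2 hs1 hs2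
  have hy0 := mul_ne_zero (pow_ne_zero (B * (S1 + S2)) hA) h0
  have h2 : 1 ≤ |((Algebra.norm ℚ ((A0 : K) ^ (B * (S1 + S2)) * val p γ κ n s1 s2) : ℚ) : ℝ)| := by
    have h3 : IsIntegral ℤ (Algebra.norm ℚ ((A0 : K) ^ (B * (S1 + S2)) * val p γ κ n s1 s2)) :=
      Algebra.isIntegral_norm ℚ h1
    obtain ⟨z, hz⟩ := IsIntegrallyClosed.isIntegral_iff.1 h3
    have h4 : z ≠ 0 := by
      rintro rfl
      rw [map_zero] at hz
      exact hy0 (Algebra.norm_eq_zero_iff.1 hz.symm)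
    rw [← hz, eq_intCast, Rat.cast_intCast]
    exact_mod_cast Int.one_le_abs h4
  have h3 := norm_le_pow_one _ ((2 : ℝ) ^ (a + b + x * A + 2 * h * (B * (S1 + S2))))
    (one_le_pow₀ (by norm_num))
    (conj_val_le A0 h a b n x S1 S2 hA0 hA0h hAB γ κ hγ hκ p hp s1 s2 hs1 hs2 hx) d hd φ
  have hd1 : 1 ≤ d := (Module.finrank_pos (R := ℚ) (M := K)).trans_le hd
  have h4 : ‖φ ((A0 : K) ^ (B * (S1 + S2)) * val p γ κ n s1 s2)‖ ≤
      2 ^ (a + b + x * A + 2 * h * (B * (S1 + S2))) * ‖φ (val p γ κ n s1 s2)‖ := by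
    rw [map_mul, norm_mul, map_pow, map_natCast, norm_pow, Complex.norm_natCast]
    refine mul_le_mul_of_nonneg_right ?_ (norm_nonneg _)
    calc (A0 : ℝ) ^ (B * (S1 + S2)) ≤ ((2 : ℝ) ^ h) ^ (B * (S1 + S2)) :=
          pow_le_pow_left₀ (Nat.cast_nonneg _) (by exact_mod_cast hA0h) _
      _ = 2 ^ (h * (B * (S1 + S2))) := by rw [← pow_mul]
      _ ≤ _ := by
          refine pow_le_pow_right₀ (by norm_num) ?_
          have : 2 * h * (B * (S1 + S2)) = h * (B * (S1 + S2)) + h * (B * (S1 + S2)) := by ring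
          omega
  calc (1 : ℝ) ≤ ‖φ ((A0 : K) ^ (B * (S1 + S2)) * val p γ κ n s1 s2)‖ *
        ((2 : ℝ) ^ (a + b + x * A + 2 * h * (B * (S1 + S2)))) ^ (d - 1) := h2.trans h3
    _ ≤ (2 ^ (a + b + x * A + 2 * h * (B * (S1 + S2))) * ‖φ (val p γ κ n s1 s2)‖) *
        ((2 : ℝ) ^ (a + b + x * A + 2 * h * (B * (S1 + S2)))) ^ (d - 1) :=
        mul_le_mul_of_nonneg_right h4 (by positivity)
    _ = ‖φ (val p γ κ n s1 s2)‖ * ((2 : ℝ) ^ (a + b + x * A + 2 * h * (B * (S1 + S2)))) ^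
        (d - 1 + 1) := by
        rw [pow_succ]
        ring
    _ = ‖φ (val p γ κ n s1 s2)‖ * 2 ^ (d * (a + b + x * A + 2 * h * (B * (S1 + S2)))) := by
        rw [Nat.sub_add_cancel hd1, ← pow_mul, mul_comm d]

end

end Pool.Agent.PGap
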