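import Pool.Agent.PGap.Interp
import Pool.Agent.PGap.Taylor
import Pool.Agent.PGap.Vals

/-! G6. Extrapolation. -/

set_option autoImplicit false

namespace Pool.Agent.PGap

open Finset

variable {K : Type} [Field K] [NumberField K] (V : PAbs K)

/-- powers of numbers of absolute value one that are close -/
theorem PAbs.pow_sub (u v : K) (hu : V.ν u = 1) (hv : V.ν v = 1) (m : ℕ) :
    V.ν (u ^ m - v ^ m) ≤ V.ν (u - v) := by
  induction m with
  | zero =>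
    rw [pow_zero, pow_zero, sub_self, map_zero]
    exact V.ν.nonneg _
  | succ m ih =>
    have h : u ^ (m + 1) - v ^ (m + 1) = u * (u ^ m - v ^ m) + (u - v) * v ^ m := by ring
    rw [h]
    refine (V.ultra _ _).trans (max_le ?_ ?_)
    · rw [map_mul, hu, one_mul]
      exact ih
    · rw [map_mul, map_pow, hv, one_pow, mul_one]

private lemma st_sum_le {ι : Type} (s : Finset ι) (f : ι → K) (C : ℝ) (hC : 0 ≤ C)
    (h : ∀ i ∈ s, V.ν (f i) ≤ C) : V.ν (∑ i ∈ s, f i) ≤ C := by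
  classical
  induction s using Finset.induction_on with
  | empty =>
    rw [Finset.sum_empty, map_zero]
    exact hC
  | insert a s ha ih =>
    rw [Finset.sum_insert ha]
    refine (V.ultra _ _).trans (max_le ?_ ?_)
    · exact h a (Finset.mem_insert_self _ _)
    · exact ih fun i hi => h i (Finset.mem_insert_of_mem hi)

private lemma st_one (γ : K) (h : V.ν (γ - 1) ≤ V.ν (V.p : K) ^ 2) : V.ν γ = 1 := by
  have h1 : V.ν (γ - 1) < 1 := by
    have h2 := V.small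
    have h3 : 0 ≤ V.ν (V.p : K) := V.ν.nonneg _
    nlinarith
  have h4 : V.ν γ ≤ 1 := by
    have h5 : γ = (γ - 1) + 1 := by ring
    rw [h5]
    refine (V.ultra _ _).trans (max_le h1.le ?_)
    rw [map_one]
  refine le_antisymm h4 ?_
  by_contra h5
  rw [not_le] at h5
  have h6 : (1 : K) = γ + (1 - γ) := by ring
  have h7 : V.ν (1 : K) ≤ max (V.ν γ) (V.ν (1 - γ)) := by
    conv_lhs => rw [h6]
    exact V.ultra _ _
  rw [map_one, V.ν.map_sub] at h7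
  exact absurd h7 (not_le.2 (max_lt h5 h1))

/-- **Extrapolation.** If the values vanish for `s1 < S1`, `s2 < S2`, they vanish for
`s1 < 2 S1`, `s2 < S2`: interpolation at the `S1 S2` integers `s1 + n s2` of the polynomial of
`exists_fpoly` (`T = 2^x`), with `δ = 2^A / 2^(S1 S2)`, `ε = (1/2)^n`, `B = (2^x)^d`
(`PAbs.int_ge`), against `liouville_val`. -/
theorem step (A0 h a b n x S1 S2 d : ℕ) (hA0 : 0 < A0) (hA0h : A0 ≤ 2 ^ h)
    (hd : Module.finrank ℚ K ≤ d) {A B : ℕ} (hAB : A * B ≤ 2 ^ a) (γ κ : K) (hγ : Sz A0 h γ)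
    (hκ : Sz A0 h κ) (p : Fin A × Fin B → ℤ) (hp : ∀ i, |p i| ≤ 2 ^ b)
    (hγ1 : V.ν (γ - 1) ≤ V.ν (V.p : K) ^ 2) (hκ1 : V.ν κ = 1)
    (happ : V.ν (γ ^ n - κ) ≤ (1 / 2) ^ n) (hS1 : S1 ≤ n) (hx : 2 * S1 + n * S2 ≤ 2 ^ x)
    (hgain : A + d * (a + b + x * A + 2 * h * (B * (2 * S1 + S2))) < S1 * S2)
    (hn : d * (a + b + x * A + 2 * h * (B * (2 * S1 + S2))) + d * x * (S1 * S2) < n)
    (hz : ∀ s1 < S1, ∀ s2 < S2, val p γ κ n s1 s2 = 0) :
    ∀ s1 < 2 * S1, ∀ s2 < S2, val p γ κ n s1 s2 = 0 := by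
  classical
  intro s1 hs1 s2 hs2
  by_contra h0
  have hγν : V.ν γ = 1 := st_one V γ hγ1
  have hγn : V.ν (γ ^ n) = 1 := by rw [map_pow, hγν, one_pow]
  obtain ⟨g, hg1, hg2⟩ := exists_fpoly V γ hγ1 A B (2 ^ x) p
  -- comparison of `val` with `g`
  have hcmp : ∀ t1 ≤ 2 * S1, ∀ t2 ≤ S2, t1 + n * t2 ≤ 2 ^ x ∧
      V.ν (val p γ κ n t1 t2 - g.eval ((t1 + n * t2 : ℕ) : K)) ≤ (1 / 2) ^ n := by
    intro t1 ht1 t2 ht2
    have hle : t1 + n * t2 ≤ 2 ^ x := by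
      have : n * t2 ≤ n * S2 := Nat.mul_le_mul_left _ ht2
      omega
    refine ⟨hle, ?_⟩
    rw [hg2 _ hle, val, ← Finset.sum_sub_distrib]
    refine st_sum_le V _ _ _ (by positivity) fun i _ => ?_
    have e : (p i : K) * ((t1 + n * t2 : ℕ) : K) ^ (i.1 : ℕ) * (γ ^ t1 * κ ^ t2) ^ (i.2 : ℕ) -
        (p i : K) * ((t1 + n * t2 : ℕ) : K) ^ (i.1 : ℕ) * (γ ^ (t1 + n * t2)) ^ (i.2 : ℕ) =
        (p i : K) * (((t1 + n * t2 : ℕ) : ℤ) : K) ^ (i.1 : ℕ) * (γ ^ t1) ^ (i.2 : ℕ) *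
          (κ ^ (t2 * (i.2 : ℕ)) - (γ ^ n) ^ (t2 * (i.2 : ℕ))) := by
      rw [pow_add, pow_mul γ n t2, pow_mul κ, pow_mul (γ ^ n)]
      push_cast
      ring
    rw [e, map_mul, map_mul, map_mul, map_pow, map_pow, map_pow, hγν, one_pow, one_pow, mul_one]
    have h1 := V.int_le (p i)
    have h2 : V.ν (((t1 + n * t2 : ℕ) : ℤ) : K) ^ (i.1 : ℕ) ≤ 1 :=
      pow_le_one₀ (V.ν.nonneg _) (V.int_le _)
    have h3 : V.ν (p i : K) * V.ν (((t1 + n * t2 : ℕ) : ℤ) : K) ^ (i.1 : ℕ) ≤ 1 :=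
      mul_le_one₀ h1 (by positivity) h2
    have h4 : V.ν (κ ^ (t2 * (i.2 : ℕ)) - (γ ^ n) ^ (t2 * (i.2 : ℕ))) ≤ (1 / 2) ^ n := by
      refine (V.pow_sub κ (γ ^ n) hκ1 hγn _).trans ?_
      rw [V.ν.map_sub]
      exact happ
    calc V.ν (p i : K) * V.ν (((t1 + n * t2 : ℕ) : ℤ) : K) ^ (i.1 : ℕ) *
          V.ν (κ ^ (t2 * (i.2 : ℕ)) - (γ ^ n) ^ (t2 * (i.2 : ℕ)))
        ≤ 1 * (1 / 2) ^ n := mul_le_mul h3 h4 (V.ν.nonneg _) zero_le_one
      _ = (1 / 2) ^ n := one_mul _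
  -- the set of the interpolation points
  set Z : Finset ℤ := (Finset.range S1 ×ˢ Finset.range S2).image
    (fun t : ℕ × ℕ => ((t.1 + n * t.2 : ℕ) : ℤ)) with hZ
  have hcard : Z.card = S1 * S2 := by
    rw [hZ, Finset.card_image_of_injOn, Finset.card_product, Finset.card_range, Finset.card_range]
    rintro ⟨u1, u2⟩ hu ⟨v1, v2⟩ hv huv
    simp only [Finset.coe_product, Set.mem_prod, Finset.mem_coe, Finset.mem_range] at hu hv
    have huv' : u1 + n * u2 = v1 + n * v2 := by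
      have h9 : ((u1 + n * u2 : ℕ) : ℤ) = ((v1 + n * v2 : ℕ) : ℤ) := huv
      exact_mod_cast h9
    have hn0 : 0 < n := by omega
    have h1 : u2 = v2 := by
      have e1 : (u1 + n * u2) / n = u2 := by
        rw [Nat.add_mul_div_left _ _ hn0, Nat.div_eq_of_lt (by omega), zero_add]
      have e2 : (v1 + n * v2) / n = v2 := by
        rw [Nat.add_mul_div_left _ _ hn0, Nat.div_eq_of_lt (by omega), zero_add]
      rw [← e1, huv', e2]
    subst h1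
    have h2 : u1 = v1 := by omega
    rw [h2]
  have hZmem : ∀ z ∈ Z, ∃ t1 < S1, ∃ t2 < S2, z = ((t1 + n * t2 : ℕ) : ℤ) := by
    intro z hz
    obtain ⟨t, ht, rfl⟩ := Finset.mem_image.1 hz
    rw [Finset.mem_product, Finset.mem_range, Finset.mem_range] at ht
    exact ⟨t.1, ht.1, t.2, ht.2, rfl⟩
  have hint : ∀ m : ℤ, V.ν (m : K) ≤ 1 := V.int_le
  have hgz : ∀ z ∈ Z, V.ν (g.eval (z : K)) ≤ (1 / 2) ^ n := by
    intro z hz'
    obtain ⟨t1, ht1, t2, ht2, rfl⟩ := hZmem z hz'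
    have h1 := (hcmp t1 (by omega) t2 ht2.le).2
    rw [hz t1 ht1 t2 ht2, zero_sub, V.ν.map_neg] at h1
    rwa [Int.cast_natCast]
  have hB1 : (1 : ℝ) ≤ ((2 : ℝ) ^ x) ^ d := one_le_pow₀ (one_le_pow₀ (by norm_num))
  have hsep : ∀ z ∈ Z, ∀ z' ∈ Z, z ≠ z' → 1 ≤ V.ν ((z - z' : ℤ) : K) * ((2 : ℝ) ^ x) ^ d := by
    intro z hz1 z' hz2 hne
    refine V.int_ge (z - z') (sub_ne_zero.2 hne) d hd _ ?_
    obtain ⟨t1, ht1, t2, ht2, rfl⟩ := hZmem z hz1
    obtain ⟨u1, hu1, u2, hu2, rfl⟩ := hZmem z' hz2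
    have h1 : t1 + n * t2 ≤ 2 ^ x := (hcmp t1 (by omega) t2 ht2.le).1
    have h2 : u1 + n * u2 ≤ 2 ^ x := (hcmp u1 (by omega) u2 hu2.le).1
    have h3 : ((t1 + n * t2 : ℕ) : ℝ) ≤ 2 ^ x := by exact_mod_cast h1
    have h4 : ((u1 + n * u2 : ℕ) : ℝ) ≤ 2 ^ x := by exact_mod_cast h2
    have h5 : (0 : ℝ) ≤ ((t1 + n * t2 : ℕ) : ℝ) := Nat.cast_nonneg _
    have h6 : (0 : ℝ) ≤ ((u1 + n * u2 : ℕ) : ℝ) := Nat.cast_nonneg _
    rw [Int.cast_sub, Int.cast_natCast, Int.cast_natCast, abs_le]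
    constructor <;> linarith
  have hgk : ∀ k, Z.card ≤ k → V.ν (g.coeff k) ≤ 2 ^ A / 2 ^ (S1 * S2) := by
    intro k hk
    rw [hcard] at hk
    have h1 := hg1 k
    have h2 : V.ν (g.coeff k) ≤ 2 ^ A / 2 ^ k := by
      rw [le_div_iff₀ (by positivity)]
      exact h1
    refine h2.trans (div_le_div_of_nonneg_left (by positivity) (by positivity) ?_)
    exact pow_le_pow_right₀ (by norm_num) hk
  have hfin := interp V.ν V.ultra hint Z g (2 ^ A / 2 ^ (S1 * S2)) ((1 / 2) ^ n) (((2 : ℝ) ^ x) ^ d)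
    (by positivity) (by positivity) hB1 hgk hgz hsep ((s1 + n * s2 : ℕ) : ℤ)
  rw [Int.cast_natCast, hcard] at hfin
  obtain ⟨hle, hc⟩ := hcmp s1 hs1.le s2 hs2.le
  have hval : V.ν (val p γ κ n s1 s2) ≤ max (2 ^ A / 2 ^ (S1 * S2))
      ((1 / 2) ^ n * (((2 : ℝ) ^ x) ^ d) ^ (S1 * S2)) := by
    have e : val p γ κ n s1 s2 = (val p γ κ n s1 s2 - g.eval ((s1 + n * s2 : ℕ) : K)) +
        g.eval ((s1 + n * s2 : ℕ) : K) := by ring
    rw [e]
    refine (V.ultra _ _).trans (max_le ?_ hfin)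
    refine le_trans hc (le_trans ?_ (le_max_right _ _))
    exact le_mul_of_one_le_right (by positivity) (one_le_pow₀ hB1)
  have hli := liouville_val A0 h a b n x (2 * S1) S2 d hA0 hA0h hd hAB γ κ hγ hκ p hp s1 s2
    hs1.le hs2.le hle V h0
  set L := d * (a + b + x * A + 2 * h * (B * (2 * S1 + S2))) with hL
  have h1 : (1 : ℝ) ≤ max (2 ^ A / 2 ^ (S1 * S2))
      ((1 / 2) ^ n * (((2 : ℝ) ^ x) ^ d) ^ (S1 * S2)) * 2 ^ L :=
    hli.trans (mul_le_mul_of_nonneg_right hval (by positivity))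
  rw [max_mul_of_nonneg _ _ (by positivity : (0 : ℝ) ≤ 2 ^ L), le_max_iff] at h1
  rcases h1 with h2 | h2
  · rw [div_mul_eq_mul_div, one_le_div (by positivity), ← pow_add] at h2
    have h3 := (pow_le_pow_iff_right₀ (by norm_num : (1 : ℝ) < 2)).1 h2
    omega
  · rw [one_div, inv_pow, ← pow_mul, ← pow_mul, mul_assoc, ← pow_add, inv_mul_eq_div,
      one_le_div (by positivity)] at h2
    have h3 := (pow_le_pow_iff_right₀ (by norm_num : (1 : ℝ) < 2)).1 h2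
    have h4 : x * (d * (S1 * S2)) + L = L + d * x * (S1 * S2) := by ring
    rw [h4] at h3
    exact absurd h3 (not_le.2 hn)

end Pool.Agent.PGap
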