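import Pool.Agent.PGap.Defs
import Pool.Agent.BakerQi.ExpSum

/-! G5. The zero estimate. -/

set_option autoImplicit false

namespace Pool.Agent.PGap

open Finset

/-- Too many zeros force the coefficients to vanish (`BakerQi.expsum_eq_zero` with the frequencies
`φ(γ)^b`, which are distinct). -/
theorem zero_est {K : Type} [Field K] [NumberField K] {A B : ℕ} (p : Fin A × Fin B → ℤ) (γ κ : K)
    (n : ℕ) (hγ0 : γ ≠ 0) (hγ : ∀ j : ℕ, 0 < j → γ ^ j ≠ 1)
    (h : ∀ s < A * B, val p γ κ n s 0 = 0) : p = 0 := by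
  classical
  obtain ⟨φ⟩ : Nonempty (K →+* ℂ) := inferInstance
  have hinj : Function.Injective fun b : Fin B => φ γ ^ (b : ℕ) := by
    have h1 : ∀ b c : ℕ, b < c → φ γ ^ b ≠ φ γ ^ c := by
      intro b c hbc h2
      rw [← map_pow, ← map_pow] at h2
      have h3 : γ ^ b = γ ^ c := φ.injective h2
      have h4 : γ ^ c = γ ^ b * γ ^ (c - b) := by rw [← pow_add, Nat.add_sub_cancel' hbc.le]
      rw [h4] at h3
      exact hγ (c - b) (Nat.sub_pos_of_lt hbc)
        (mul_left_cancel₀ (pow_ne_zero b hγ0) (by rw [mul_one]; exact h3.symm))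
    intro b c hbc
    rcases lt_trichotomy (b : ℕ) c with h2 | h2 | h2
    · exact absurd hbc (h1 _ _ h2)
    · exact Fin.ext h2
    · exact absurd hbc.symm (h1 _ _ h2)
  let R : Fin B → Polynomial ℂ := fun b =>
    ∑ a : Fin A, Polynomial.C ((p (a, b) : ℤ) : ℂ) * Polynomial.X ^ (a : ℕ)
  let Q : ℂ → Polynomial ℂ := fun θ => ∑ b : Fin B, if φ γ ^ (b : ℕ) = θ then R b else 0
  have hQ : ∀ b : Fin B, Q (φ γ ^ (b : ℕ)) = R b := by
    intro b
    simp only [Q]
    rw [Finset.sum_eq_single b]
    · rw [if_pos rfl]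
    · intro c _ hc
      rw [if_neg fun h2 => hc (hinj h2)]
    · intro h2
      exact absurd (Finset.mem_univ b) h2
  set Θ : Finset ℂ := univ.image fun b : Fin B => φ γ ^ (b : ℕ) with hΘ
  have hcard : Θ.card = B := by
    rw [hΘ, Finset.card_image_of_injective _ hinj, Finset.card_univ, Fintype.card_fin]
  have key := BakerQi.expsum_eq_zero Θ (by
    intro θ hθ
    obtain ⟨b, -, rfl⟩ := Finset.mem_image.1 hθ
    exact pow_ne_zero _ (by simpa using hγ0)) A Q (by
    intro θ hθ i hi
    obtain ⟨b, -, rfl⟩ := Finset.mem_image.1 hθ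
    rw [hQ, Polynomial.finsetSum_coeff]
    refine Finset.sum_eq_zero fun a _ => ?_
    rw [Polynomial.coeff_C_mul, Polynomial.coeff_X_pow, if_neg (by have := a.2; omega),
      mul_zero]) (by
    intro s hs
    rw [hcard] at hs
    rw [hΘ, Finset.sum_image fun _ _ _ _ h2 => hinj h2]
    have h1 := congrArg φ (h s (by rw [mul_comm]; exact hs))
    rw [map_zero, val, map_sum, ← Finset.univ_product_univ, Finset.sum_product_right] at h1
    rw [← h1]
    refine Finset.sum_congr rfl fun b _ => ?_
    rw [hQ, Polynomial.eval_finsetSum, Finset.sum_mul]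
    refine Finset.sum_congr rfl fun a _ => ?_
    rw [Polynomial.eval_mul, Polynomial.eval_C, Polynomial.eval_pow, Polynomial.eval_X]
    simp only [mul_zero, add_zero, pow_zero, mul_one, map_mul, map_pow, map_intCast, map_natCast]
    rw [← pow_mul, ← pow_mul, mul_comm s])
  funext ⟨a, b⟩
  have h1 := key _ (Finset.mem_image_of_mem _ (Finset.mem_univ b))
  rw [hQ] at h1
  have h2 := congrArg (Polynomial.coeff · (a : ℕ)) h1
  simp only [R, Polynomial.finsetSum_coeff, Polynomial.coeff_C_mul, Polynomial.coeff_X_pow,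
    Polynomial.coeff_zero] at h2
  rw [Finset.sum_eq_single a] at h2
  · simpa using h2
  · intro c _ hc
    rw [if_neg fun h3 => hc (Fin.ext h3.symm), mul_zero]
  · intro h3
    exact absurd (Finset.mem_univ a) h3

end Pool.Agent.PGap
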