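import Pool.Agent.PGap.AuxF
import Pool.Agent.PGap.Zero
import Pool.Agent.PGap.Step

/-! G7. The lower bound for `γ^n - κ`. -/

set_option autoImplicit false

namespace Pool.Agent.PGap

open Finset

private lemma mn_lin (q : ℕ) (hq : 9 ≤ q) : 48 * (q + 1) + 3 ≤ 2 ^ q := by
  induction q, hq using Nat.le_induction with
  | base => norm_num
  | succ q hq ih =>
    rw [pow_succ]
    omega

private lemma mn_pow (r : ℕ) (hr : 432 ≤ r) : (r + 3) ^ 48 ≤ 2 ^ r := by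
  have h1 : r + 3 ≤ 2 ^ (r / 48) := by
    have h2 := mn_lin (r / 48) (by omega)
    omega
  calc (r + 3) ^ 48 ≤ (2 ^ (r / 48)) ^ 48 := Nat.pow_le_pow_left h1 _
    _ = 2 ^ (r / 48 * 48) := by rw [← pow_mul]
    _ ≤ 2 ^ r := Nat.pow_le_pow_right (by norm_num) (Nat.div_mul_le_self r 48)

/-- the elementary inequality for the thresholds (`t = log₂ (z (r+2)) + 11`, `r = log₂ n + 1`) -/
theorem exists_threshold : ∃ C : ℕ, ∀ z n : ℕ, 2 ≤ z → z ^ C ≤ n →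
    (2 ^ (Nat.log 2 (z * (Nat.log 2 n + 3)) + 11)) ^ 24 ≤ n := by
  refine ⟨576, ?_⟩
  intro z n hz hn
  set r := Nat.log 2 n with hr
  have hn2 : 2 ^ 576 ≤ n := (Nat.pow_le_pow_left hz 576).trans hn
  have hn0 : n ≠ 0 := by
    rintro rfl
    exact absurd hn2 (by norm_num)
  have hr576 : 576 ≤ r := by
    rw [hr]
    exact (Nat.le_log_iff_pow_le (by norm_num) hn0).2 hn2
  have hrn : 2 ^ r ≤ n := Nat.pow_log_le_self 2 hn0
  have h1 : 2 ^ (Nat.log 2 (z * (r + 3)) + 11) ≤ 2 ^ 11 * (z * (r + 3)) := by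
    rw [pow_add, mul_comm]
    exact Nat.mul_le_mul_left _ (Nat.pow_log_le_self 2 (by positivity))
  have h2 : (2 ^ 11 * (z * (r + 3))) ^ 48 ≤ n * n := by
    have h3 : (r + 3) ^ 48 ≤ n := (mn_pow r (by omega)).trans hrn
    have h4 : (2 ^ 11) ^ 48 ≤ z ^ 528 := by
      rw [← pow_mul]
      exact Nat.pow_le_pow_left hz _
    calc (2 ^ 11 * (z * (r + 3))) ^ 48 = (2 ^ 11) ^ 48 * z ^ 48 * (r + 3) ^ 48 := by
          rw [mul_pow, mul_pow, mul_assoc]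
      _ ≤ z ^ 528 * z ^ 48 * n := Nat.mul_le_mul (Nat.mul_le_mul_right _ h4) h3
      _ = z ^ 576 * n := by rw [← pow_add]
      _ ≤ n * n := Nat.mul_le_mul_right _ hn
  have h5 : ((2 ^ (Nat.log 2 (z * (r + 3)) + 11)) ^ 24) ^ 2 ≤ n ^ 2 := by
    rw [← pow_mul, sq n]
    exact (Nat.pow_le_pow_left h1 48).trans h2
  exact (Nat.pow_le_pow_iff_left (by norm_num)).1 h5

section
variable {z d h r T x a A B S j S1 n t : ℕ}

/-- the arithmetic of the parameters -/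
private lemma mn_arith (hz : z = 2 + d + h) (hT : 2 ^ 10 * (z * (r + 2)) < T) (ht : t ≤ T)
    (hn : T ^ 24 ≤ n) (hS1 : T ^ 6 ≤ S1) (hS1' : S1 ≤ T ^ 13) :
    T ^ 9 + d * (13 * t + (13 * t + (r + 14 * t) * T ^ 9 + 4 * h * (T ^ 4 * T ^ 6) + 1) +
      (r + 14 * t) * T ^ 9 + 2 * h * (T ^ 4 * (2 * S1 + T ^ 6))) < S1 * T ^ 6 ∧
    d * (13 * t + (13 * t + (r + 14 * t) * T ^ 9 + 4 * h * (T ^ 4 * T ^ 6) + 1) +
      (r + 14 * t) * T ^ 9 + 2 * h * (T ^ 4 * (2 * S1 + T ^ 6))) +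
      d * (r + 14 * t) * (S1 * T ^ 6) < n := by
  have hz2 : 2 ≤ z := by omega
  have hzr : z ≤ z * (r + 2) := Nat.le_mul_of_pos_right _ (by omega)
  have hT2 : 2048 ≤ T := by omega
  have hzT : 1024 * z ≤ T := by omega
  have hdT : 1024 * d ≤ T := by omega
  have hhT : 1024 * h ≤ T := by omega
  have hrT : r ≤ T := by
    have : r + 2 ≤ z * (r + 2) := Nat.le_mul_of_pos_left _ (by omega)
    omega
  have hdh : 2 ^ 20 * (d * h) ≤ T ^ 2 := by
    calc 2 ^ 20 * (d * h) = (1024 * d) * (1024 * h) := by ring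
      _ ≤ T * T := Nat.mul_le_mul hdT hhT
      _ = T ^ 2 := (sq T).symm
  have hp : ∀ i k : ℕ, i ≤ k → T ^ i ≤ T ^ k := fun i k h => Nat.pow_le_pow_right (by omega) h
  set W := S1 * T ^ 6 with hW
  have hW12 : T ^ 12 ≤ W := by
    calc T ^ 12 = T ^ 6 * T ^ 6 := by rw [← pow_add]
      _ ≤ W := Nat.mul_le_mul_right _ hS1
  have hW19 : W ≤ T ^ 19 := by
    calc W ≤ T ^ 13 * T ^ 6 := Nat.mul_le_mul_right _ hS1'
      _ = T ^ 19 := by rw [← pow_add]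
  have hx : r + 14 * t ≤ 15 * T := by omega
  have e0 : 1024 * T ^ 9 ≤ W := by
    calc 1024 * T ^ 9 ≤ T * T ^ 9 := Nat.mul_le_mul_right _ (by omega)
      _ = T ^ 10 := by ring
      _ ≤ T ^ 12 := hp _ _ (by norm_num)
      _ ≤ W := hW12
  have e1 : 1024 * (d * (2 * (13 * t) + 1 + 2 * ((r + 14 * t) * T ^ 9))) ≤ W := by
    have h1 : 2 * (13 * t) + 1 + 2 * ((r + 14 * t) * T ^ 9) ≤ 57 * T ^ 10 := by
      have h2 : (r + 14 * t) * T ^ 9 ≤ 15 * T ^ 10 := by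
        calc (r + 14 * t) * T ^ 9 ≤ 15 * T * T ^ 9 := Nat.mul_le_mul_right _ hx
          _ = 15 * T ^ 10 := by ring
      have h3 : T ≤ T ^ 10 := Nat.le_self_pow (by norm_num) T
      omega
    calc 1024 * (d * (2 * (13 * t) + 1 + 2 * ((r + 14 * t) * T ^ 9)))
        = 1024 * d * (2 * (13 * t) + 1 + 2 * ((r + 14 * t) * T ^ 9)) := by ring
      _ ≤ T * (57 * T ^ 10) := Nat.mul_le_mul hdT h1
      _ = 57 * T ^ 11 := by ring
      _ ≤ T * T ^ 11 := Nat.mul_le_mul_right _ (by omega)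
      _ = T ^ 12 := by ring
      _ ≤ W := hW12
  have e2 : 1024 * (6 * (d * h) * T ^ 10) ≤ W := by
    calc 1024 * (6 * (d * h) * T ^ 10) = 6144 * (d * h) * T ^ 10 := by ring
      _ ≤ 2 ^ 20 * (d * h) * T ^ 10 :=
          Nat.mul_le_mul_right _ (Nat.mul_le_mul_right _ (by norm_num))
      _ ≤ T ^ 2 * T ^ 10 := Nat.mul_le_mul_right _ hdh
      _ = T ^ 12 := by rw [← pow_add]
      _ ≤ W := hW12
  have e3 : 1024 * (4 * (d * h) * (T ^ 4 * S1)) ≤ W := by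
    calc 1024 * (4 * (d * h) * (T ^ 4 * S1)) = 4096 * (d * h) * (T ^ 4 * S1) := by ring
      _ ≤ 2 ^ 20 * (d * h) * (T ^ 4 * S1) :=
          Nat.mul_le_mul_right _ (Nat.mul_le_mul_right _ (by norm_num))
      _ ≤ T ^ 2 * (T ^ 4 * S1) := Nat.mul_le_mul_right _ hdh
      _ = W := by rw [hW]; ring
  have hL : d * (13 * t + (13 * t + (r + 14 * t) * T ^ 9 + 4 * h * (T ^ 4 * T ^ 6) + 1) +
      (r + 14 * t) * T ^ 9 + 2 * h * (T ^ 4 * (2 * S1 + T ^ 6))) =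
      d * (2 * (13 * t) + 1 + 2 * ((r + 14 * t) * T ^ 9)) + 6 * (d * h) * T ^ 10 +
        4 * (d * h) * (T ^ 4 * S1) := by ring
  rw [hL]
  have hW0 : 0 < W := lt_of_lt_of_le (by positivity) hW12
  generalize d * (2 * (13 * t) + 1 + 2 * ((r + 14 * t) * T ^ 9)) = u1 at *
  generalize 6 * (d * h) * T ^ 10 = u2 at *
  generalize 4 * (d * h) * (T ^ 4 * S1) = u3 at *
  refine ⟨by omega, ?_⟩
  have h5 : d * (r + 14 * t) * W ≤ 15 * T ^ 21 := by
    calc d * (r + 14 * t) * W ≤ T * (15 * T) * T ^ 19 :=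
          Nat.mul_le_mul (Nat.mul_le_mul (by omega) hx) hW19
      _ = 15 * T ^ 21 := by ring
  have h6 : T ^ 19 ≤ T ^ 21 := hp _ _ (by norm_num)
  have h7 : 16 * T ^ 21 ≤ T ^ 24 := by
    calc 16 * T ^ 21 ≤ T * T ^ 21 := Nat.mul_le_mul_right _ (by omega)
      _ = T ^ 22 := by ring
      _ ≤ T ^ 24 := hp _ _ (by norm_num)
  generalize d * (r + 14 * t) * W = u4 at *
  omega

end

/-- **The nonarchimedean gap.** Proof: suppose `ν(γ^n - κ) ≤ 2^-n`. Put `z = 2 + d + h`,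
`r = log₂ n + 1` (so `n < 2^r`), `2^t ≥ 2^10 z (r+2)` (`t = log₂ (z (r+2)) + 11`),
`A = 2^(9t)`, `B = 2^(4t)`, `S = 2^(6t)`, `a = 13t`, `x = r + 14t`,
`b = a + xA + 4hBS + 1 ≤ 2^(12t-6)` or so. `exists_aux`, then `step` with `S1 = 2^j S`, `S2 = S`,
`j < 7t`, then `zero_est`. -/
theorem padic_gap : ∃ C : ℕ, ∀ (K : Type) [Field K] [NumberField K] (V : PAbs K)
    (d h n A0 : ℕ) (γ κ : K), Module.finrank ℚ K ≤ d → 0 < A0 → A0 ≤ 2 ^ h → Sz A0 h γ →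
    Sz A0 h κ → V.ν (γ - 1) ≤ V.ν (V.p : K) ^ 2 → V.ν κ = 1 → (∀ j : ℕ, 0 < j → γ ^ j ≠ 1) →
    (2 + d + h) ^ C ≤ n → (1 / 2) ^ n < V.ν (γ ^ n - κ) := by
  obtain ⟨C, hC⟩ := exists_threshold
  refine ⟨C, ?_⟩
  intro K _ _ V d h n A0 γ κ hd hA0 hA0h hγ hκ hγ1 hκ1 htor hn
  by_contra happ
  rw [not_lt] at happ
  set z := 2 + d + h with hz
  have hthr := hC z n (by omega) hn
  set r := Nat.log 2 n + 1 with hr
  set t := Nat.log 2 (z * (Nat.log 2 n + 3)) + 11 with ht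
  set T := 2 ^ t with hTdef
  have hnr : n < 2 ^ r := Nat.lt_pow_succ_log_self (by norm_num) n
  have hT : 2 ^ 10 * (z * (r + 2)) < T := by
    have h1 : z * (r + 2) < 2 ^ (Nat.log 2 (z * (Nat.log 2 n + 3)) + 1) := by
      have h2 : r + 2 = Nat.log 2 n + 3 := by omega
      rw [h2]
      exact Nat.lt_pow_succ_log_self (by norm_num) _
    calc 2 ^ 10 * (z * (r + 2)) < 2 ^ 10 * 2 ^ (Nat.log 2 (z * (Nat.log 2 n + 3)) + 1) :=
          (Nat.mul_lt_mul_left (by norm_num)).2 h1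
      _ = T := by
          rw [← pow_add, hTdef, ht]
          congr 1
          omega
  have htT : t ≤ T := Nat.lt_two_pow_self.le
  have hT1 : 2048 ≤ T := by
    have h1 : z ≤ z * (r + 2) := Nat.le_mul_of_pos_right _ (by omega)
    omega
  have hp : ∀ i k : ℕ, i ≤ k → T ^ i ≤ T ^ k := fun i k h => Nat.pow_le_pow_right (by omega) h
  have hTp : ∀ i : ℕ, 2 ^ (i * t) = T ^ i := fun i => by rw [hTdef, ← pow_mul, mul_comm]
  have hγν : V.ν γ = 1 := by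
    have h1 : V.ν (γ - 1) < 1 := by
      have h2 := V.small
      have h3 : 0 ≤ V.ν (V.p : K) := V.ν.nonneg _
      nlinarith
    have h4 : V.ν γ ≤ 1 := by
      have h5 : γ = (γ - 1) + 1 := by ring
      rw [h5]
      refine (V.ultra _ _).trans (max_le h1.le ?_)
      rw [map_one]
    refine le_antisymm h4 ?_
    by_contra h5
    rw [not_le] at h5
    have h6 : (1 : K) = γ + (1 - γ) := by ring
    have h7 : V.ν (1 : K) ≤ max (V.ν γ) (V.ν (1 - γ)) := by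
      conv_lhs => rw [h6]
      exact V.ultra _ _
    rw [map_one, V.ν.map_sub] at h7
    exact absurd h7 (not_le.2 (max_lt h5 h1))
  have hγ0 : γ ≠ 0 := by
    rintro rfl
    rw [map_zero] at hγν
    exact zero_ne_one hγν
  have hnT : T ^ 24 ≤ n := hthr
  have hAB : T ^ 9 * T ^ 4 ≤ 2 ^ (13 * t) := by rw [hTp, ← pow_add]
  have hxpow : 2 ^ (r + 14 * t) = 2 ^ r * T ^ 14 := by rw [pow_add, hTp]
  have hT6 : 0 < T ^ 6 := by positivity
  obtain ⟨p, hp0, hpb, hpz⟩ := exists_aux A0 h (13 * t)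
    (13 * t + (r + 14 * t) * T ^ 9 + 4 * h * (T ^ 4 * T ^ 6) + 1) n (r + 14 * t) (T ^ 6) d hA0
    hA0h hd hAB γ κ hγ hκ hT6 (by
      rw [hxpow]
      calc T ^ 6 + n * T ^ 6 = (n + 1) * T ^ 6 := by ring
        _ ≤ 2 ^ r * T ^ 6 := Nat.mul_le_mul_right _ hnr
        _ ≤ 2 ^ r * T ^ 14 := Nat.mul_le_mul_left _ (hp _ _ (by norm_num))) le_rfl (by
      have h1 : 8 * (d + 2) ≤ T := by
        have h2 : z ≤ z * (r + 2) := Nat.le_mul_of_pos_right _ (by omega)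
        omega
      calc 8 * (d + 2) * (T ^ 6) ^ 2 ≤ T * (T ^ 6) ^ 2 := Nat.mul_le_mul_right _ h1
        _ = T ^ 9 * T ^ 4 := by ring)
  have hind : ∀ j ≤ 7 * t, ∀ s1 < 2 ^ j * T ^ 6, ∀ s2 < T ^ 6, val p γ κ n s1 s2 = 0 := by
    intro j
    induction j with
    | zero =>
      intro _ s1 hs1 s2 hs2
      rw [pow_zero, one_mul] at hs1
      exact hpz s1 hs1 s2 hs2
    | succ j ih =>
      intro hj
      have hih := ih (by omega)
      have h2j : 2 ^ (j + 1) ≤ T ^ 7 := by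
        rw [← hTp]
        exact Nat.pow_le_pow_right (by norm_num) hj
      have hS1a : T ^ 6 ≤ 2 ^ j * T ^ 6 := Nat.le_mul_of_pos_left _ (by positivity)
      have hS1b : 2 * (2 ^ j * T ^ 6) ≤ T ^ 13 := by
        calc 2 * (2 ^ j * T ^ 6) = 2 ^ (j + 1) * T ^ 6 := by rw [pow_succ]; ring
          _ ≤ T ^ 7 * T ^ 6 := Nat.mul_le_mul_right _ h2j
          _ = T ^ 13 := by rw [← pow_add]
      obtain ⟨g1, g2⟩ := mn_arith hz hT htT hnT hS1a (by omega)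
      have h13 : T ^ 13 ≤ n := (hp _ _ (by norm_num)).trans hnT
      have hstep := step V A0 h (13 * t)
        (13 * t + (r + 14 * t) * T ^ 9 + 4 * h * (T ^ 4 * T ^ 6) + 1) n (r + 14 * t)
        (2 ^ j * T ^ 6) (T ^ 6) d hA0 hA0h hd hAB γ κ hγ hκ p hpb hγ1 hκ1 happ (by omega) (by
          rw [hxpow]
          have h1 : T ^ 13 ≤ 2 ^ r * T ^ 13 := Nat.le_mul_of_pos_left _ (by positivity)
          have h2 : n * T ^ 6 ≤ 2 ^ r * T ^ 13 := Nat.mul_le_mul hnr.le (hp _ _ (by norm_num))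
          have h3 : 2 * (2 ^ r * T ^ 13) ≤ 2 ^ r * T ^ 14 := by
            calc 2 * (2 ^ r * T ^ 13) ≤ T * (2 ^ r * T ^ 13) :=
                  Nat.mul_le_mul_right _ (by omega)
              _ = 2 ^ r * T ^ 14 := by ring
          omega) g1 g2 hih
      have e : 2 ^ (j + 1) * T ^ 6 = 2 * (2 ^ j * T ^ 6) := by rw [pow_succ]; ring
      rw [e]
      exact hstep
  apply hp0
  refine zero_est p γ κ n hγ0 htor fun s hs => ?_
  refine hind (7 * t) le_rfl s ?_ 0 hT6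
  rw [hTp]
  calc s < T ^ 9 * T ^ 4 := hs
    _ = T ^ 7 * T ^ 6 := by rw [← pow_add, ← pow_add]

end Pool.Agent.PGap
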