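import Pool.Agent.PGap.Defs

/-! G8. Finite places. -/

set_option autoImplicit false

namespace Pool.Agent.PGap

open Finset IsDedekindDomain NumberField

section Place

variable {K : Type} [Field K] [NumberField K] (P : HeightOneSpectrum (𝓞 K))

private theorem toNN_exp {e : NNReal} (he : e ≠ 0) (k : ℤ) :
    WithZeroMulInt.toNNReal he (WithZero.exp k) = e ^ k := by
  rw [WithZeroMulInt.toNNReal_neg_apply he WithZero.exp_ne_zero]
  rfl

/-- the norm of the prime ideal -/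
private noncomputable def nrm : ℕ := Ideal.absNorm P.asIdeal

private theorem two_le_nrm : 2 ≤ nrm P := HeightOneSpectrum.one_lt_absNorm P

private theorem two_le_nrm' : (2 : ℝ) ≤ nrm P := by exact_mod_cast two_le_nrm P

/-- the absolute value -/
private noncomputable def abv : AbsoluteValue K ℝ := HeightOneSpectrum.adicAbv K P

private theorem abv_def (x : K) : abv P x =
    (WithZeroMulInt.toNNReal (HeightOneSpectrum.absNorm_ne_zero P) (P.valuation K x) : ℝ) := rfl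

private theorem strictMono : StrictMono (WithZeroMulInt.toNNReal
    (HeightOneSpectrum.absNorm_ne_zero P)) :=
  WithZeroMulInt.toNNReal_strictMono (HeightOneSpectrum.one_lt_absNorm_nnreal P)

private theorem abv_exp (k : ℤ) : ((WithZeroMulInt.toNNReal (HeightOneSpectrum.absNorm_ne_zero P)
    (WithZero.exp k) : NNReal) : ℝ) = (nrm P : ℝ) ^ k := by
  rw [toNN_exp]
  push_cast
  rfl

/-- values of elements of powers of the prime ideal -/
private theorem abv_le_iff (z : 𝓞 K) (n : ℕ) :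
    abv P (z : K) ≤ (nrm P : ℝ) ^ (-(n : ℤ)) ↔ z ∈ P.asIdeal ^ n := by
  rw [abv_def, ← abv_exp, NNReal.coe_le_coe, (strictMono P).le_iff_le,
    HeightOneSpectrum.valuation_of_algebraMap]
  exact HeightOneSpectrum.intValuation_le_pow_iff_mem P z n

private theorem abv_int {z : 𝓞 K} (hz : z ≠ 0) :
    ∃ k : ℕ, abv P (z : K) = (nrm P : ℝ) ^ (-(k : ℤ)) := by
  refine ⟨(Associates.mk P.asIdeal).count (Associates.mk (Ideal.span {z})).factors, ?_⟩
  rw [abv_def, ← abv_exp, HeightOneSpectrum.valuation_of_algebraMap,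
    HeightOneSpectrum.intValuation_if_neg _ hz]

private theorem abv_le_one {x : K} (hx : IsIntegral ℤ x) : abv P x ≤ 1 := by
  have h := (abv_le_iff P ⟨x, hx⟩ 0).2 (by rw [pow_zero, Ideal.one_eq_top]; trivial)
  simpa using h

private theorem abv_lt_of_mem {z : 𝓞 K} (hz : z ∈ P.asIdeal) :
    abv P (z : K) ≤ (nrm P : ℝ)⁻¹ := by
  have h := (abv_le_iff P z 1).2 (by rwa [pow_one])
  simpa using h

private theorem abv_eq_one {z : 𝓞 K} (hz : z ∉ P.asIdeal) : abv P (z : K) = 1 := by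
  rw [abv_def, (HeightOneSpectrum.valuation_eq_one_iff_notMem P).2 hz, map_one, NNReal.coe_one]

private theorem notMem_of_abv_eq_one {z : 𝓞 K} (hz : abv P (z : K) = 1) : z ∉ P.asIdeal := by
  intro h
  have h1 := abv_lt_of_mem P h
  rw [hz] at h1
  have h2 := two_le_nrm' P
  have h3 : (nrm P : ℝ)⁻¹ ≤ 2⁻¹ := inv_anti₀ (by norm_num) h2
  norm_num at h3
  linarith

private theorem liou {x : K} (hx : IsIntegral ℤ x) (h0 : x ≠ 0) :
    1 ≤ abv P x * |((Algebra.norm ℚ x : ℚ) : ℝ)| := by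
  obtain ⟨z, rfl⟩ : ∃ z : 𝓞 K, (z : K) = x := ⟨⟨x, hx⟩, rfl⟩
  have hz : z ≠ 0 := by
    rintro rfl
    exact h0 (by simp)
  obtain ⟨k, hk⟩ := abv_int P hz
  have h1 : z ∈ P.asIdeal ^ k := (abv_le_iff P z k).1 hk.le
  have h2 : (nrm P) ^ k ∣ (Algebra.norm ℤ z).natAbs := by
    have h3 := Ideal.absNorm_dvd_norm_of_mem h1
    rw [map_pow] at h3
    exact Int.natCast_dvd.1 h3
  have h4 : (Algebra.norm ℤ z).natAbs ≠ 0 := by
    rw [Int.natAbs_ne_zero]
    exact Algebra.norm_ne_zero_iff.2 hz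
  have h5 : (nrm P : ℝ) ^ k ≤ ((Algebra.norm ℤ z).natAbs : ℝ) := by
    exact_mod_cast Nat.le_of_dvd (Nat.pos_of_ne_zero h4) h2
  have h6 : |((Algebra.norm ℚ (z : K) : ℚ) : ℝ)| = ((Algebra.norm ℤ z).natAbs : ℝ) := by
    rw [← Algebra.coe_norm_int z, Nat.cast_natAbs]
    push_cast
    rfl
  rw [h6, hk]
  have h7 : (0 : ℝ) < (nrm P : ℝ) ^ k := pow_pos (by linarith [two_le_nrm' P]) _
  rw [zpow_neg, zpow_natCast]
  calc (1 : ℝ) = ((nrm P : ℝ) ^ k)⁻¹ * (nrm P : ℝ) ^ k := (inv_mul_cancel₀ h7.ne').symm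
    _ ≤ _ := mul_le_mul_of_nonneg_left h5 (inv_nonneg.2 h7.le)

private theorem gap (x : K) (hx : 1 < abv P x) : 2 ≤ abv P x := by
  have h0 : P.valuation K x ≠ 0 := by
    intro h
    rw [abv_def, h, map_zero, NNReal.coe_zero] at hx
    linarith
  obtain ⟨k, hk⟩ : ∃ k : ℤ, P.valuation K x = WithZero.exp k :=
    ⟨WithZero.log (P.valuation K x), (WithZero.exp_log h0).symm⟩
  rw [abv_def, hk, abv_exp] at hx ⊢
  have h2 := two_le_nrm' P
  have h3 : 0 < k := (one_lt_zpow_iff_right₀ (by linarith)).1 hx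
  calc (2 : ℝ) ≤ nrm P := h2
    _ = (nrm P : ℝ) ^ (1 : ℤ) := (zpow_one _).symm
    _ ≤ (nrm P : ℝ) ^ k := zpow_le_zpow_right₀ (by linarith) h3

private theorem exists_prime : ∃ p : ℕ, p.Prime ∧ (p : 𝓞 K) ∈ P.asIdeal := by
  have h1 : ((nrm P : ℕ) : 𝓞 K) ∈ P.asIdeal := Ideal.absNorm_mem _
  have h2 : nrm P ≠ 0 := by have := two_le_nrm P; omega
  rw [← Nat.prod_primeFactorsList h2, Nat.cast_list_prod, ← Multiset.prod_coe] at h1
  obtain ⟨a, ha, hb⟩ := (P.isPrime.multiset_prod_mem_iff_exists_mem _).1 h1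
  rw [Multiset.mem_coe, List.mem_map] at ha
  obtain ⟨p, hp, rfl⟩ := ha
  exact ⟨p, Nat.prime_of_mem_primeFactorsList hp, hb⟩

/-- the absolute value of a prime ideal -/
private noncomputable def pabs (p : ℕ) (hp : p.Prime) (hpP : (p : 𝓞 K) ∈ P.asIdeal) : PAbs K where
  ν := abv P
  ultra := HeightOneSpectrum.adicAbv_add_le_max K P
  le_one _ hx := abv_le_one P hx
  liou _ hx h0 := liou P hx h0
  p := p
  prime := hp
  small := by
    have h := abv_lt_of_mem P hpP
    have h2 := two_le_nrm' P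
    have h3 : (nrm P : ℝ)⁻¹ ≤ 2⁻¹ := inv_anti₀ (by norm_num) h2
    have h4 : ((p : 𝓞 K) : K) = (p : K) := by simp
    rw [h4] at h
    norm_num at h3 ⊢
    linarith
  gap := gap P

private theorem exists_exp (p : ℕ) (hp : p.Prime) :
    ∃ m : ℕ, 0 < m ∧ m ≤ p ^ (2 * Module.finrank ℚ K) ∧
      ∀ y : K, abv P y = 1 → abv P (y ^ m - 1) ≤ abv P (p : K) ^ 2 := by
  have hp0 : (p : 𝓞 K) ≠ 0 := by
    exact_mod_cast hp.ne_zero
  obtain ⟨e, he⟩ := abv_int P hp0
  have hcast : ((p : 𝓞 K) : K) = (p : K) := by simp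
  rw [hcast] at he
  have hmem : (p : 𝓞 K) ∈ P.asIdeal ^ e := by
    rw [← abv_le_iff, hcast]
    exact he.le
  have hne : P.asIdeal ^ (2 * e) ≠ ⊥ := pow_ne_zero _ P.ne_bot
  have : Finite (𝓞 K ⧸ P.asIdeal ^ (2 * e)) := Ideal.finiteQuotientOfFreeOfNeBot _ hne
  have hcard : (nrm P) ^ e ≤ p ^ Module.finrank ℚ K := by
    have h1 := Ideal.absNorm_dvd_norm_of_mem hmem
    rw [map_pow, Algebra.norm_natCast, NumberField.RingOfIntegers.rank] at h1
    have h2 : (nrm P) ^ e ∣ p ^ Module.finrank ℚ K := by exact_mod_cast h1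
    exact Nat.le_of_dvd (pow_pos hp.pos _) h2
  refine ⟨Nat.card (𝓞 K ⧸ P.asIdeal ^ (2 * e))ˣ, Nat.card_pos, ?_, ?_⟩
  · calc Nat.card (𝓞 K ⧸ P.asIdeal ^ (2 * e))ˣ ≤ Nat.card (𝓞 K ⧸ P.asIdeal ^ (2 * e)) :=
          Nat.card_le_card_of_injective _ Units.val_injective
      _ = Ideal.absNorm (P.asIdeal ^ (2 * e)) := rfl
      _ = ((nrm P) ^ e) ^ 2 := by
          rw [map_pow, ← pow_mul, mul_comm e 2]
          rfl
      _ ≤ (p ^ Module.finrank ℚ K) ^ 2 := Nat.pow_le_pow_left hcard 2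
      _ = p ^ (2 * Module.finrank ℚ K) := by rw [← pow_mul, mul_comm]
  · intro y hy
    set m := Nat.card (𝓞 K ⧸ P.asIdeal ^ (2 * e))ˣ with hm
    have hv : P.valuation K y ≤ 1 := by
      rw [← (strictMono P).le_iff_le, map_one, ← NNReal.coe_le_coe, NNReal.coe_one]
      exact hy.le
    obtain ⟨n, ⟨d, hd⟩, hnd⟩ := HeightOneSpectrum.exists_primeCompl_mul_eq_of_integer P y hv
    have hd' : d ∉ P.asIdeal := hd
    have hνd : abv P (d : K) = 1 := abv_eq_one P hd'
    have hnd' : y * (d : K) = (n : K) := hnd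
    have hνn : abv P (n : K) = 1 := by rw [← hnd', map_mul, hy, hνd, one_mul]
    have hn' : n ∉ P.asIdeal := notMem_of_abv_eq_one P hνn
    have hunit : ∀ z : 𝓞 K, z ∉ P.asIdeal →
        (Ideal.Quotient.mk (P.asIdeal ^ (2 * e)) z) ^ m = 1 := by
      intro z hz
      have h1 : IsCoprime (Ideal.span {z}) (P.asIdeal ^ (2 * e)) := by
        apply IsCoprime.pow_right
        rw [Ideal.isCoprime_iff_sup_eq]
        refine P.isMaximal.out.2 _ (lt_of_le_of_ne le_sup_right fun h => hz ?_)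
        rw [h]
        exact Ideal.mem_sup_left (Ideal.mem_span_singleton_self z)
      obtain ⟨a, ha, b, hb, hab⟩ := Ideal.isCoprime_iff_exists.1 h1
      obtain ⟨c, rfl⟩ := Ideal.mem_span_singleton'.1 ha
      have h2 : IsUnit (Ideal.Quotient.mk (P.asIdeal ^ (2 * e)) z) := by
        refine IsUnit.of_mul_eq_one (Ideal.Quotient.mk (P.asIdeal ^ (2 * e)) c) ?_
        rw [← map_mul, ← map_one (Ideal.Quotient.mk (P.asIdeal ^ (2 * e))), Ideal.Quotient.eq]
        have h3 : z * c - 1 = -b := by rw [← hab]; ring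
        rw [h3]
        exact neg_mem hb
      obtain ⟨u, hu⟩ := h2
      rw [← hu, ← Units.val_pow_eq_pow_val, hm, pow_card_eq_one', Units.val_one]
    have h1 : n ^ m - d ^ m ∈ P.asIdeal ^ (2 * e) := by
      rw [← Ideal.Quotient.eq, map_pow, map_pow, hunit n hn', hunit d hd']
    have h2 := (abv_le_iff P _ _).2 h1
    have hd0 : (d : K) ≠ 0 := by
      intro h
      rw [h, map_zero] at hνd
      exact zero_ne_one hνd
    have h3 : y ^ m - 1 = ((n ^ m - d ^ m : 𝓞 K) : K) / (d : K) ^ m := by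
      have h4 : y = (n : K) / (d : K) := (eq_div_iff hd0).2 hnd'
      have hdm : (d : K) ^ m ≠ 0 := pow_ne_zero _ hd0
      rw [h4, div_pow, eq_div_iff hdm, sub_mul, div_mul_cancel₀ _ hdm, one_mul]
      push_cast
      rfl
    rw [h3, map_div₀, map_pow, hνd, one_pow, div_one, he]
    refine h2.trans (le_of_eq ?_)
    rw [← zpow_natCast, ← zpow_mul]
    congr 1
    push_cast
    ring

end Place

/-- **Finite places.** For `x` not integral there is a prime ideal `P` of the ring of integers with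
`|x|_P > 1`; `ν = adicAbv` (values in `N(P)^ℤ`), Liouville from the product formula
(`NumberField.prod_abs_eq_one`) or from `N(P)^k ∣ N(x)` for `x ∈ P^k`; `p` the prime below `P`,
`m` the order of the units of `𝓞/P^(2e)`, `|p|_P = N(P)^-e`, `N(P)^(2e) ≤ p^(2 [K:ℚ])`: write
`y = u/t` with `u`, `t` integral outside `P`. -/
theorem exists_pabs (K : Type) [Field K] [NumberField K] (x : K) (hx : ¬ IsIntegral ℤ x) :
    ∃ V : PAbs K, 1 < V.ν x ∧ ∃ m : ℕ, 0 < m ∧ m ≤ V.p ^ (2 * Module.finrank ℚ K) ∧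
      ∀ y : K, V.ν y = 1 → V.ν (y ^ m - 1) ≤ V.ν (V.p : K) ^ 2 := by
  have h1 : ∃ P : HeightOneSpectrum (𝓞 K), ¬ P.valuation K x ≤ 1 := by
    by_contra h
    push Not at h
    obtain ⟨z, hz⟩ := HeightOneSpectrum.mem_integers_of_valuation_le_one (R := 𝓞 K) K x h
    apply hx
    rw [← hz]
    exact z.2
  obtain ⟨P, hP⟩ := h1
  obtain ⟨p, hp, hpP⟩ := exists_prime P
  refine ⟨pabs P p hp hpP, ?_, exists_exp P p hp⟩
  change 1 < abv P x
  rw [abv_def, ← NNReal.coe_one, NNReal.coe_lt_coe,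
    ← map_one (WithZeroMulInt.toNNReal (HeightOneSpectrum.absNorm_ne_zero P)),
    (strictMono P).lt_iff_lt]
  exact not_le.1 hP

end Pool.Agent.PGap
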