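import Pool.Agent.PGap.Main
import Pool.Agent.PGap.Place

/-! G9. Large indices are not zeros of `α x^n + α' x^-n + β y^n + β' y^-n`. -/

set_option autoImplicit false

namespace Pool.Agent.PGap

open Finset

variable {K : Type} [Field K] [NumberField K]

private lemma nzo_conj {A0 h : ℕ} {z : K} (hA0h : A0 ≤ 2 ^ h) (hz : Sz A0 h z) (τ : K →+* ℂ) :
    ‖τ ((A0 : K) * z)‖ ≤ (2 : ℝ) ^ (2 * h) := by
  rw [map_mul, map_natCast, norm_mul, Complex.norm_natCast]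
  calc (A0 : ℝ) * ‖τ z‖ ≤ 2 ^ h * 2 ^ h :=
        mul_le_mul (by exact_mod_cast hA0h) (hz.2 τ) (norm_nonneg _) (by positivity)
    _ = 2 ^ (2 * h) := by rw [← pow_add, two_mul]

/-- size of the inverse: multiply by the norm -/
theorem Sz.inv {A0 h : ℕ} {z : K} (hA0 : 0 < A0) (hA0h : A0 ≤ 2 ^ h) (hz : Sz A0 h z)
    (h0 : z ≠ 0) (d : ℕ) (hd : Module.finrank ℚ K ≤ d) :
    ∃ A1 : ℕ, 0 < A1 ∧ A1 ≤ 2 ^ (2 * h * d + h) ∧ Sz A1 (2 * h * d + h) z⁻¹ := by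
  classical
  obtain ⟨w, hw⟩ : ∃ w : NumberField.RingOfIntegers K, (w : K) = (A0 : K) * z :=
    ⟨⟨_, hz.1⟩, rfl⟩
  have hA0K : (A0 : K) ≠ 0 := Nat.cast_ne_zero.2 hA0.ne'
  have hwK : (w : K) ≠ 0 := by
    rw [hw]
    exact mul_ne_zero hA0K h0
  have hw0 : w ≠ 0 := by
    rintro rfl
    exact hwK (by simp)
  set N := Ideal.absNorm (Ideal.span {w}) with hN
  have hNmem : ((N : ℕ) : NumberField.RingOfIntegers K) ∈ Ideal.span {w} := Ideal.absNorm_mem _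
  obtain ⟨c, hc⟩ := Ideal.mem_span_singleton'.1 hNmem
  have hcK : (c : K) * (w : K) = (N : K) := by
    have := congrArg (fun t : NumberField.RingOfIntegers K => (t : K)) hc
    simpa using this
  have hNnorm : (N : ℝ) = |((Algebra.norm ℚ (w : K) : ℚ) : ℝ)| := by
    rw [hN, Ideal.absNorm_span_singleton, ← Algebra.coe_norm_int w, Nat.cast_natAbs]
    push_cast
    rfl
  have hNpos : 0 < N := by
    rw [hN, Ideal.absNorm_span_singleton, Int.natAbs_pos]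
    exact Algebra.norm_ne_zero_iff.2 hw0
  have hconj : ∀ τ : K →+* ℂ, ‖τ (w : K)‖ ≤ (2 : ℝ) ^ (2 * h) := fun τ => by
    rw [hw]
    exact nzo_conj hA0h hz τ
  have hW1 : (1 : ℝ) ≤ 2 ^ (2 * h) := one_le_pow₀ (by norm_num)
  have hNle : (N : ℝ) ≤ (2 ^ (2 * h)) ^ d := by
    rw [hNnorm]
    exact norm_le_pow (w : K) _ hW1 hconj d hd
  have hzinv : z⁻¹ = (A0 : K) * (w : K)⁻¹ := by
    rw [hw, mul_inv, ← mul_assoc, mul_inv_cancel₀ hA0K, one_mul]
  refine ⟨N, hNpos, ?_, ?_, ?_⟩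
  · have h1 : (N : ℝ) ≤ 2 ^ (2 * h * d + h) := by
      rw [pow_add, pow_mul]
      exact hNle.trans (le_mul_of_one_le_right (by positivity) (one_le_pow₀ (by norm_num)))
    exact_mod_cast h1
  · have h1 : (N : K) * z⁻¹ = (A0 : K) * (c : K) := by
      rw [hzinv, ← hcK]
      field_simp
    rw [h1]
    have h2 : IsIntegral ℤ (A0 : K) := by
      have h3 := isIntegral_algebraMap (R := ℤ) (A := K) (x := (A0 : ℤ))
      simpa using h3
    exact h2.mul c.2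
  · intro τ
    have h1 : (1 : ℝ) ≤ ‖τ (w : K)‖ * (2 ^ (2 * h)) ^ d := by
      have h2 := Algebra.norm_eq_prod_embeddings ℚ ℂ (w : K)
      have h3 : (N : ℝ) = ∏ σ : K →ₐ[ℚ] ℂ, ‖σ (w : K)‖ := by
        rw [hNnorm, ← norm_prod, ← h2]
        simp
      have h4 : ∏ σ : K →ₐ[ℚ] ℂ, ‖σ (w : K)‖ = ‖τ.toRatAlgHom (w : K)‖ *
          ∏ σ ∈ Finset.univ.erase τ.toRatAlgHom, ‖σ (w : K)‖ :=
        (Finset.mul_prod_erase Finset.univ (fun σ : K →ₐ[ℚ] ℂ => ‖σ (w : K)‖)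
          (Finset.mem_univ τ.toRatAlgHom)).symm
      have h5 : ∏ σ ∈ Finset.univ.erase τ.toRatAlgHom, ‖σ (w : K)‖ ≤ (2 ^ (2 * h)) ^ d := by
        calc ∏ σ ∈ Finset.univ.erase τ.toRatAlgHom, ‖σ (w : K)‖
            ≤ ∏ _σ ∈ Finset.univ.erase τ.toRatAlgHom, (2 : ℝ) ^ (2 * h) :=
              Finset.prod_le_prod (fun _ _ => norm_nonneg _) fun σ _ => hconj (σ : K →+* ℂ)
          _ = (2 ^ (2 * h)) ^ (Finset.univ.erase τ.toRatAlgHom).card := by
              rw [Finset.prod_const]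
          _ ≤ (2 ^ (2 * h)) ^ d := by
              refine pow_le_pow_right₀ hW1 ?_
              refine (Finset.card_le_card (Finset.erase_subset _ _)).trans ?_
              rw [Finset.card_univ, AlgHom.card]
              exact hd
      have h6 : (1 : ℝ) ≤ N := by exact_mod_cast hNpos
      rw [h3, h4] at h6
      exact h6.trans (mul_le_mul_of_nonneg_left h5 (norm_nonneg _))
    rw [hzinv, map_mul, map_inv₀, norm_mul, norm_inv, map_natCast, Complex.norm_natCast]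
    have h7 : 0 < ‖τ (w : K)‖ := norm_pos_iff.2 ((map_ne_zero τ).2 hwK)
    have h8 : ‖τ (w : K)‖⁻¹ ≤ (2 ^ (2 * h)) ^ d := by
      rw [inv_le_iff_one_le_mul₀ h7, mul_comm]
      exact h1
    calc (A0 : ℝ) * ‖τ (w : K)‖⁻¹ ≤ 2 ^ h * (2 ^ (2 * h)) ^ d :=
          mul_le_mul (by exact_mod_cast hA0h) h8 (by positivity) (by positivity)
      _ = 2 ^ (2 * h * d + h) := by rw [← pow_mul, ← pow_add, add_comm]

private lemma nzo_ub (V : PAbs K) {A0 h : ℕ} {z : K} (hA0 : 0 < A0) (hA0h : A0 ≤ 2 ^ h)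
    (hz : Sz A0 h z) (d : ℕ) (hd : Module.finrank ℚ K ≤ d) : V.ν z ≤ 2 ^ (h * d) := by
  have h1 := V.le_one _ hz.1
  rw [map_mul] at h1
  have h2 := V.int_ge (A0 : ℤ) (by exact_mod_cast hA0.ne') d hd (2 ^ h) (by
    rw [Int.cast_natCast, abs_of_nonneg (Nat.cast_nonneg _)]
    exact_mod_cast hA0h)
  rw [Int.cast_natCast, ← pow_mul] at h2
  calc V.ν z = V.ν z * 1 := (mul_one _).symm
    _ ≤ V.ν z * (V.ν (A0 : K) * 2 ^ (h * d)) := mul_le_mul_of_nonneg_left h2 (V.ν.nonneg _)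
    _ = V.ν (A0 : K) * V.ν z * 2 ^ (h * d) := by ring
    _ ≤ 1 * 2 ^ (h * d) := mul_le_mul_of_nonneg_right h1 (by positivity)
    _ = 2 ^ (h * d) := one_mul _

private lemma nzo_lb (V : PAbs K) {A0 h : ℕ} {z : K} (hA0 : 0 < A0) (hA0h : A0 ≤ 2 ^ h)
    (hz : Sz A0 h z) (h0 : z ≠ 0) (d : ℕ) (hd : Module.finrank ℚ K ≤ d) :
    1 ≤ V.ν z * 2 ^ (2 * h * d) := by
  have hA0K : (A0 : K) ≠ 0 := Nat.cast_ne_zero.2 hA0.ne'
  have h1 := V.liou _ hz.1 (mul_ne_zero hA0K h0)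
  have h2 := norm_le_pow ((A0 : K) * z) (2 ^ (2 * h)) (one_le_pow₀ (by norm_num))
    (nzo_conj hA0h hz) d hd
  have h3 : V.ν (A0 : K) ≤ 1 := by
    have := V.int_le (A0 : ℤ)
    rwa [Int.cast_natCast] at this
  rw [map_mul] at h1
  rw [← pow_mul] at h2
  calc (1 : ℝ) ≤ V.ν (A0 : K) * V.ν z * |((Algebra.norm ℚ ((A0 : K) * z) : ℚ) : ℝ)| := h1
    _ ≤ 1 * V.ν z * 2 ^ (2 * h * d) :=
        mul_le_mul (mul_le_mul_of_nonneg_right h3 (V.ν.nonneg _)) h2 (abs_nonneg _)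
          (by have := V.ν.nonneg z; positivity)
    _ = V.ν z * 2 ^ (2 * h * d) := by rw [one_mul]

/-- one dominating term -/
private lemma nzo_dom (V : PAbs K) {A0 h d n : ℕ} {x y α α' β β' : K}
    (hd : Module.finrank ℚ K ≤ d) (hA0 : 0 < A0) (hA0h : A0 ≤ 2 ^ h)
    (hα : Sz A0 h α) (hα' : Sz A0 h α') (hβ : Sz A0 h β) (hβ' : Sz A0 h β') (hα0 : α ≠ 0)
    (hn : 3 * h * d < n) (h1 : V.ν x⁻¹ * 2 ≤ V.ν x) (h2 : V.ν y * 2 ≤ V.ν x)
    (h3 : V.ν y⁻¹ * 2 ≤ V.ν x) (hx : 0 < V.ν x) :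
    α * x ^ n + α' * x⁻¹ ^ n + β * y ^ n + β' * y⁻¹ ^ n ≠ 0 := by
  intro h0
  have e : α * x ^ n = -(α' * x⁻¹ ^ n) + (-(β * y ^ n) + -(β' * y⁻¹ ^ n)) := by
    linear_combination h0
  have key : ∀ z w : K, Sz A0 h z → V.ν w * 2 ≤ V.ν x →
      V.ν (-(z * w ^ n)) ≤ 2 ^ (h * d) * (V.ν x / 2) ^ n := by
    intro z w hz hw
    rw [V.ν.map_neg, map_mul, map_pow]
    refine mul_le_mul (nzo_ub V hA0 hA0h hz d hd) ?_ (pow_nonneg (V.ν.nonneg _) _) (by positivity)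
    exact pow_le_pow_left₀ (V.ν.nonneg _) (by linarith) n
  have h4 : V.ν (α * x ^ n) ≤ 2 ^ (h * d) * (V.ν x / 2) ^ n := by
    rw [e]
    refine (V.ultra _ _).trans (max_le (key _ _ hα' h1) ?_)
    exact (V.ultra _ _).trans (max_le (key _ _ hβ h2) (key _ _ hβ' h3))
  rw [map_mul, map_pow, div_pow] at h4
  have hxn : 0 < V.ν x ^ n := pow_pos hx n
  have h5 : V.ν α * 2 ^ n ≤ 2 ^ (h * d) := by
    have h6 : V.ν α * V.ν x ^ n ≤ 2 ^ (h * d) / 2 ^ n * V.ν x ^ n := by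
      calc V.ν α * V.ν x ^ n ≤ 2 ^ (h * d) * (V.ν x ^ n / 2 ^ n) := h4
        _ = 2 ^ (h * d) / 2 ^ n * V.ν x ^ n := by ring
    have h7 := le_of_mul_le_mul_right h6 hxn
    rwa [le_div_iff₀ (by positivity)] at h7
  have h8 := nzo_lb V hA0 hA0h hα hα0 d hd
  have h9 : (2 : ℝ) ^ n ≤ 2 ^ (3 * h * d) := by
    calc (2 : ℝ) ^ n = 1 * 2 ^ n := (one_mul _).symm
      _ ≤ V.ν α * 2 ^ (2 * h * d) * 2 ^ n := mul_le_mul_of_nonneg_right h8 (by positivity)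
      _ = V.ν α * 2 ^ n * 2 ^ (2 * h * d) := by ring
      _ ≤ 2 ^ (h * d) * 2 ^ (2 * h * d) := mul_le_mul_of_nonneg_right h5 (by positivity)
      _ = 2 ^ (3 * h * d) := by
          rw [← pow_add]
          congr 1
          ring
  have h10 := (pow_le_pow_iff_right₀ (by norm_num : (1 : ℝ) < 2)).1 h9
  omega

private lemma nzo_int_mul {a c : ℕ} {z : K} (h : IsIntegral ℤ ((a : K) * z)) :
    IsIntegral ℤ (((a * c : ℕ) : K) * z) := by
  have h1 : ((a * c : ℕ) : K) * z = (c : K) * ((a : K) * z) := by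
    push_cast
    ring
  rw [h1]
  have h2 : IsIntegral ℤ (c : K) := by
    have := isIntegral_algebraMap (R := ℤ) (A := K) (x := (c : ℤ))
    simpa using this
  exact h2.mul h

private lemma nzo_int_pow {a : ℕ} {z : K} (h : IsIntegral ℤ ((a : K) * z)) (m : ℕ) :
    IsIntegral ℤ (((a ^ m : ℕ) : K) * z ^ m) := by
  have h1 : ((a ^ m : ℕ) : K) * z ^ m = ((a : K) * z) ^ m := by
    push_cast
    ring
  rw [h1]
  exact h.pow m

private lemma nzo_int_prod {a c : ℕ} {z w : K} (h : IsIntegral ℤ ((a : K) * z))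
    (h' : IsIntegral ℤ ((c : K) * w)) : IsIntegral ℤ (((a * c : ℕ) : K) * (z * w)) := by
  have h1 : ((a * c : ℕ) : K) * (z * w) = ((a : K) * z) * ((c : K) * w) := by
    push_cast
    ring
  rw [h1]
  exact h.mul h'

private lemma nzo_arith (C : ℕ) : ∃ C' : ℕ, ∀ d h m n : ℕ, 2 ^ ((2 + d + h) ^ C') ≤ n →
    m ≤ 2 ^ (4 * h * d) → 3 * h * d < n ∧
      (2 + d + (h + 3 * (2 * h * d + h)) * (m + 1)) ^ C * m ≤ n := by
  refine ⟨8 * C + 6, ?_⟩
  intro d h m n hn hm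
  set z := 2 + d + h with hz
  have hz2 : 2 ≤ z := by omega
  have hhd : h * d ≤ z * z := Nat.mul_le_mul (by omega) (by omega)
  constructor
  · have h1 : 3 * (z * z) ≤ z ^ 4 := by
      calc 3 * (z * z) ≤ (2 * 2) * (z * z) := Nat.mul_le_mul_right _ (by norm_num)
        _ ≤ (z * z) * (z * z) := Nat.mul_le_mul_right _ (Nat.mul_le_mul hz2 hz2)
        _ = z ^ 4 := by ring
    have h2 : z ^ 4 ≤ z ^ (8 * C + 6) := Nat.pow_le_pow_right (by omega) (by omega)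
    have h3 : z ^ (8 * C + 6) < 2 ^ (z ^ (8 * C + 6)) := Nat.lt_two_pow_self
    have h4 : 3 * h * d = 3 * (h * d) := by ring
    omega
  · refine le_trans ?_ hn
    have hm1 : m ≤ 2 ^ (4 * z ^ 2) := by
      refine hm.trans (Nat.pow_le_pow_right (by norm_num) ?_)
      calc 4 * h * d = 4 * (h * d) := by ring
        _ ≤ 4 * (z * z) := Nat.mul_le_mul_left _ hhd
        _ = 4 * z ^ 2 := by ring
    have h1 : 2 + d + (h + 3 * (2 * h * d + h)) * (m + 1) ≤ 2 ^ (8 * z ^ 2) := by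
      have h2 : h + 3 * (2 * h * d + h) ≤ 10 * (z * z) := by
        have h3 : h ≤ z * z := (by omega : h ≤ z).trans (Nat.le_mul_of_pos_left _ (by omega))
        have h4 : h + 3 * (2 * h * d + h) = 4 * h + 6 * (h * d) := by ring
        omega
      have h3 : m + 1 ≤ 2 * 2 ^ (4 * z ^ 2) := by
        have : 1 ≤ 2 ^ (4 * z ^ 2) := Nat.one_le_two_pow
        omega
      have h4 : 2 + d ≤ z * z * 2 ^ (4 * z ^ 2) := by
        calc 2 + d ≤ z := by omega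
          _ ≤ z * z := Nat.le_mul_of_pos_left _ (by omega)
          _ ≤ z * z * 2 ^ (4 * z ^ 2) := Nat.le_mul_of_pos_right _ (by positivity)
      have h5 : (h + 3 * (2 * h * d + h)) * (m + 1) ≤ 20 * (z * z * 2 ^ (4 * z ^ 2)) := by
        calc (h + 3 * (2 * h * d + h)) * (m + 1) ≤ 10 * (z * z) * (2 * 2 ^ (4 * z ^ 2)) :=
              Nat.mul_le_mul h2 h3
          _ = 20 * (z * z * 2 ^ (4 * z ^ 2)) := by ring
      have h6 : z * z ≤ 2 ^ (2 * z) := by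
        have : z ≤ 2 ^ z := Nat.lt_two_pow_self.le
        calc z * z ≤ 2 ^ z * 2 ^ z := Nat.mul_le_mul this this
          _ = 2 ^ (2 * z) := by rw [← pow_add, two_mul]
      calc 2 + d + (h + 3 * (2 * h * d + h)) * (m + 1)
          ≤ 21 * (z * z * 2 ^ (4 * z ^ 2)) := by omega
        _ ≤ 2 ^ 5 * (2 ^ (2 * z) * 2 ^ (4 * z ^ 2)) :=
            Nat.mul_le_mul (by norm_num) (Nat.mul_le_mul_right _ h6)
        _ = 2 ^ (5 + (2 * z + 4 * z ^ 2)) := by rw [← pow_add, ← pow_add]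
        _ ≤ 2 ^ (8 * z ^ 2) := Nat.pow_le_pow_right (by norm_num) (by nlinarith)
    calc (2 + d + (h + 3 * (2 * h * d + h)) * (m + 1)) ^ C * m
        ≤ (2 ^ (8 * z ^ 2)) ^ C * 2 ^ (4 * z ^ 2) :=
          Nat.mul_le_mul (Nat.pow_le_pow_left h1 _) hm1
      _ = 2 ^ ((8 * C + 4) * z ^ 2) := by
          rw [← pow_mul, ← pow_add]
          congr 1
          ring
      _ ≤ 2 ^ (z ^ (8 * C + 6)) := by
          refine Nat.pow_le_pow_right (by norm_num) ?_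
          have h2 : 8 * C + 4 ≤ z ^ (8 * C + 4) :=
            (Nat.lt_two_pow_self.le).trans (Nat.pow_le_pow_left hz2 _)
          calc (8 * C + 4) * z ^ 2 ≤ z ^ (8 * C + 4) * z ^ 2 := Nat.mul_le_mul_right _ h2
            _ = z ^ (8 * C + 6) := by rw [← pow_add]

/-- two terms of the same absolute value -/
private lemma nzo_eq {C : ℕ} (hC : ∀ (K : Type) [Field K] [NumberField K] (V : PAbs K)
    (d h n A0 : ℕ) (γ κ : K), Module.finrank ℚ K ≤ d → 0 < A0 → A0 ≤ 2 ^ h → Sz A0 h γ →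
    Sz A0 h κ → V.ν (γ - 1) ≤ V.ν (V.p : K) ^ 2 → V.ν κ = 1 → (∀ j : ℕ, 0 < j → γ ^ j ≠ 1) →
    (2 + d + h) ^ C ≤ n → (1 / 2) ^ n < V.ν (γ ^ n - κ))
    (V : PAbs K) {A0 h d n m : ℕ} {x y α α' β β' : K}
    (hd : Module.finrank ℚ K ≤ d) (hA0 : 0 < A0) (hA0h : A0 ≤ 2 ^ h)
    (hx : Sz A0 h x) (hy : Sz A0 h y)
    (hα : Sz A0 h α) (hα' : Sz A0 h α') (hβ : Sz A0 h β) (hβ' : Sz A0 h β')
    (hβ0 : β ≠ 0) (hτ : ∀ τ : K →+* ℂ, ‖τ x‖ = 1 ∧ ‖τ y‖ = 1)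
    (hind : ∀ a b : ℤ, x ^ a * y ^ b = 1 → a = 0 ∧ b = 0)
    (hx2 : 2 ≤ V.ν x) (hxy : V.ν x = V.ν y) (hm : 0 < m)
    (hmV : ∀ y : K, V.ν y = 1 → V.ν (y ^ m - 1) ≤ V.ν (V.p : K) ^ 2)
    (hn : 3 * h * d < n)
    (hn' : (2 + d + (h + 3 * (2 * h * d + h)) * (m + 1)) ^ C * m ≤ n) :
    α * x ^ n + α' * x⁻¹ ^ n + β * y ^ n + β' * y⁻¹ ^ n ≠ 0 := by
  intro h0
  have hνx : 0 < V.ν x := by linarith
  have hx0 : x ≠ 0 := by
    rintro rfl
    rw [map_zero] at hνx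
    exact lt_irrefl _ hνx
  have hy0 : y ≠ 0 := by
    rintro rfl
    rw [map_zero] at hxy
    linarith
  have hxn : x ^ n ≠ 0 := pow_ne_zero _ hx0
  -- smallness
  have hsm : V.ν ((y / x) ^ n - -(α / β)) * 2 ^ (2 * n) ≤ 2 ^ (3 * h * d) := by
    have e : (y / x) ^ n - -(α / β) = -(α' * x⁻¹ ^ n + β' * y⁻¹ ^ n) / (β * x ^ n) := by
      have h1 : α * x ^ n + β * y ^ n = -(α' * x⁻¹ ^ n + β' * y⁻¹ ^ n) := by
        linear_combination h0
      rw [← h1, div_pow, eq_div_iff (mul_ne_zero hβ0 hxn), sub_mul, neg_mul]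
      have h2 : y ^ n / x ^ n * (β * x ^ n) = β * y ^ n := by
        rw [div_mul_eq_mul_div, div_eq_iff hxn]
        ring
      have h3 : α / β * (β * x ^ n) = α * x ^ n := by
        rw [← mul_assoc, div_mul_cancel₀ _ hβ0]
      rw [h2, h3]
      ring
    have h1 : V.ν (α' * x⁻¹ ^ n + β' * y⁻¹ ^ n) * V.ν x ^ n ≤ 2 ^ (h * d) := by
      have h2 : V.ν (α' * x⁻¹ ^ n + β' * y⁻¹ ^ n) ≤ 2 ^ (h * d) * (V.ν x)⁻¹ ^ n := by
        refine (V.ultra _ _).trans (max_le ?_ ?_)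
        · rw [map_mul, map_pow, map_inv₀]
          exact mul_le_mul_of_nonneg_right (nzo_ub V hA0 hA0h hα' d hd) (by positivity)
        · rw [map_mul, map_pow, map_inv₀, ← hxy]
          exact mul_le_mul_of_nonneg_right (nzo_ub V hA0 hA0h hβ' d hd) (by positivity)
      calc V.ν (α' * x⁻¹ ^ n + β' * y⁻¹ ^ n) * V.ν x ^ n
          ≤ 2 ^ (h * d) * (V.ν x)⁻¹ ^ n * V.ν x ^ n :=
            mul_le_mul_of_nonneg_right h2 (by positivity)
        _ = 2 ^ (h * d) := by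
            rw [mul_assoc, ← mul_pow, inv_mul_cancel₀ hνx.ne', one_pow, mul_one]
    have h3 := nzo_lb V hA0 hA0h hβ hβ0 d hd
    have hβν : 0 < V.ν β := V.ν.pos hβ0
    have h4 : (2 : ℝ) ^ n ≤ V.ν x ^ n := pow_le_pow_left₀ (by norm_num) hx2 n
    rw [e, map_div₀, V.ν.map_neg, map_mul, map_pow]
    set N := V.ν (α' * x⁻¹ ^ n + β' * y⁻¹ ^ n) with hN
    have hN0 : 0 ≤ N := V.ν.nonneg _
    have hX : 0 < V.ν x ^ n := by positivity
    rw [div_mul_eq_mul_div, div_le_iff₀ (by positivity)]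
    calc N * 2 ^ (2 * n) = N * 2 ^ n * 2 ^ n := by rw [two_mul, pow_add]; ring
      _ ≤ N * V.ν x ^ n * V.ν x ^ n :=
          mul_le_mul (mul_le_mul_of_nonneg_left h4 hN0) h4 (by positivity) (by positivity)
      _ ≤ 2 ^ (h * d) * V.ν x ^ n := mul_le_mul_of_nonneg_right h1 hX.le
      _ = 2 ^ (h * d) * 1 * V.ν x ^ n := by rw [mul_one]
      _ ≤ 2 ^ (h * d) * (V.ν β * 2 ^ (2 * h * d)) * V.ν x ^ n :=
          mul_le_mul_of_nonneg_right (mul_le_mul_of_nonneg_left h3 (by positivity)) hX.le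
      _ = 2 ^ (3 * h * d) * (V.ν β * V.ν x ^ n) := by
          have : (2 : ℝ) ^ (3 * h * d) = 2 ^ (h * d) * 2 ^ (2 * h * d) := by
            rw [← pow_add]
            congr 1
            ring
          rw [this]
          ring
  set γ₀ := y / x with hγ₀
  set κ₀ := -(α / β) with hκ₀
  have hγ0 : γ₀ ≠ 0 := div_ne_zero hy0 hx0
  have hνγ₀ : V.ν γ₀ = 1 := by
    rw [hγ₀, map_div₀, ← hxy, div_self hνx.ne']
  set n' := n / m with hn'def
  set s := n % m with hs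
  have hdiv : n = m * n' + s := (Nat.div_add_mod n m).symm
  have hsm' : s < m := Nat.mod_lt _ hm
  have hn'n : n' ≤ n := Nat.div_le_self _ _
  have hsmall : V.ν (γ₀ ^ n - κ₀) ≤ (1 / 2) ^ n' := by
    rw [one_div, inv_pow, ← one_div, le_div_iff₀ (by positivity)]
    have h1 : V.ν (γ₀ ^ n - κ₀) * 2 ^ n' * 2 ^ (3 * h * d) ≤ 1 * 2 ^ (3 * h * d) := by
      rw [one_mul]
      refine le_trans ?_ hsm
      rw [mul_assoc, ← pow_add]
      refine mul_le_mul_of_nonneg_left ?_ (V.ν.nonneg _)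
      exact pow_le_pow_right₀ (by norm_num) (by omega)
    exact le_of_mul_le_mul_right h1 (by positivity)
  have hlt1 : V.ν (γ₀ ^ n - κ₀) < 1 := by
    have h1 : V.ν (γ₀ ^ n - κ₀) * 2 ^ (3 * h * d) < 1 * 2 ^ (3 * h * d) := by
      rcases (V.ν.nonneg (γ₀ ^ n - κ₀)).eq_or_lt with h2 | h2
      · rw [← h2, zero_mul]
        positivity
      · rw [one_mul]
        refine lt_of_lt_of_le ?_ hsm
        exact mul_lt_mul_of_pos_left (pow_lt_pow_right₀ (by norm_num) (by omega)) h2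
    exact lt_of_mul_lt_mul_right h1 (by positivity)
  have hγ₀n : V.ν (γ₀ ^ n) = 1 := by rw [map_pow, hνγ₀, one_pow]
  have hνκ₀ : V.ν κ₀ = 1 := by
    refine le_antisymm ?_ ?_
    · have e : κ₀ = γ₀ ^ n + -(γ₀ ^ n - κ₀) := by ring
      rw [e]
      refine (V.ultra _ _).trans (max_le hγ₀n.le ?_)
      rw [V.ν.map_neg]
      exact hlt1.le
    · by_contra h1
      rw [not_le] at h1
      have e : γ₀ ^ n = κ₀ + (γ₀ ^ n - κ₀) := by ring
      have h2 : V.ν (γ₀ ^ n) ≤ max (V.ν κ₀) (V.ν (γ₀ ^ n - κ₀)) := by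
        conv_lhs => rw [e]
        exact V.ultra _ _
      rw [hγ₀n] at h2
      exact absurd h2 (not_le.2 (max_lt h1 hlt1))
  -- sizes
  set H := h + 3 * (2 * h * d + h) with hH
  obtain ⟨Ax, hAx0, hAxle, hAx⟩ := hx.inv hA0 hA0h hx0 d hd
  obtain ⟨Ay, hAy0, hAyle, hAy⟩ := hy.inv hA0 hA0h hy0 d hd
  obtain ⟨Ab, hAb0, hAble, hAb⟩ := hβ.inv hA0 hA0h hβ0 d hd
  set M := A0 * (Ax * (Ay * Ab)) with hM
  have hM0 : 0 < M := by positivity
  have hMle : M ≤ 2 ^ H := by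
    calc M ≤ 2 ^ h * (2 ^ (2 * h * d + h) * (2 ^ (2 * h * d + h) * 2 ^ (2 * h * d + h))) :=
          Nat.mul_le_mul hA0h (Nat.mul_le_mul hAxle (Nat.mul_le_mul hAyle hAble))
      _ = 2 ^ H := by
          rw [← pow_add, ← pow_add, ← pow_add, hH]
          congr 1
          ring
  have hnγ : ∀ τ : K →+* ℂ, ‖τ γ₀‖ = 1 := by
    intro τ
    rw [hγ₀, map_div₀, norm_div, (hτ τ).1, (hτ τ).2, div_one]
  have hSzγ : Sz (M ^ (m + 1)) (H * (m + 1)) (γ₀ ^ m) := by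
    constructor
    · have h1 : IsIntegral ℤ (((A0 * Ax : ℕ) : K) * γ₀) := by
        rw [hγ₀, div_eq_mul_inv]
        exact nzo_int_prod hy.1 hAx.1
      have h2 : IsIntegral ℤ ((M : K) * γ₀) := by
        have e : M = A0 * Ax * (Ay * Ab) := by rw [hM]; ring
        rw [e]
        exact nzo_int_mul h1
      have h3 := nzo_int_mul (c := M) (nzo_int_pow h2 m)
      rw [← pow_succ] at h3
      exact h3
    · intro τ
      rw [map_pow, norm_pow, hnγ, one_pow]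
      exact one_le_pow₀ (by norm_num)
  have hSzκ : Sz (M ^ (m + 1)) (H * (m + 1)) (κ₀ * (γ₀ ^ s)⁻¹) := by
    have e0 : κ₀ * (γ₀ ^ s)⁻¹ = -((α * β⁻¹) * (x * y⁻¹) ^ s) := by
      rw [hκ₀, hγ₀, div_eq_mul_inv, ← inv_pow, inv_div, div_eq_mul_inv]
      ring
    constructor
    · have h1 : IsIntegral ℤ (((A0 * Ay : ℕ) : K) * (x * y⁻¹)) := nzo_int_prod hx.1 hAy.1
      have h2 : IsIntegral ℤ ((M : K) * (x * y⁻¹)) := by
        have e : M = A0 * Ay * (Ax * Ab) := by rw [hM]; ring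
        rw [e]
        exact nzo_int_mul h1
      have h3 : IsIntegral ℤ ((M : K) * (α * β⁻¹)) := by
        have e : M = A0 * Ab * (Ax * Ay) := by rw [hM]; ring
        rw [e]
        exact nzo_int_mul (nzo_int_prod hα.1 hAb.1)
      have h4 := nzo_int_mul (c := M ^ (m - s)) (nzo_int_prod h3 (nzo_int_pow h2 s))
      have e : M * M ^ s * M ^ (m - s) = M ^ (m + 1) := by
        rw [mul_assoc, ← pow_add, Nat.add_sub_cancel' hsm'.le, mul_comm, ← pow_succ]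
      rw [e] at h4
      rw [e0, mul_neg]
      exact h4.neg
    · intro τ
      have h1 : ‖τ (κ₀ * (γ₀ ^ s)⁻¹)‖ = ‖τ α‖ * ‖τ β⁻¹‖ := by
        rw [e0, map_neg, norm_neg, map_mul, map_mul, map_pow, map_mul, norm_mul, norm_mul,
          norm_pow, norm_mul, (hτ τ).1, map_inv₀ τ y, norm_inv, (hτ τ).2, inv_one, mul_one,
          one_pow, mul_one]
      rw [h1]
      calc ‖τ α‖ * ‖τ β⁻¹‖ ≤ 2 ^ h * 2 ^ (2 * h * d + h) :=
            mul_le_mul (hα.2 τ) (hAb.2 τ) (norm_nonneg _) (by positivity)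
        _ = 2 ^ (h + (2 * h * d + h)) := by rw [← pow_add]
        _ ≤ 2 ^ (H * (m + 1)) := by
            refine pow_le_pow_right₀ (by norm_num) ?_
            calc h + (2 * h * d + h) ≤ H := by omega
              _ ≤ H * (m + 1) := Nat.le_mul_of_pos_right _ (by omega)
  have hMpow : M ^ (m + 1) ≤ 2 ^ (H * (m + 1)) := by
    rw [pow_mul]
    exact Nat.pow_le_pow_left hMle _
  have htor : ∀ j : ℕ, 0 < j → (γ₀ ^ m) ^ j ≠ 1 := by
    intro j hj h1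
    rw [← pow_mul, hγ₀, div_pow, div_eq_one_iff_eq (pow_ne_zero _ hx0)] at h1
    have h2 := hind (-((m * j : ℕ) : ℤ)) ((m * j : ℕ) : ℤ) (by
      rw [zpow_neg, zpow_natCast, zpow_natCast, h1]
      exact inv_mul_cancel₀ (pow_ne_zero _ hx0))
    have h3 : ((m * j : ℕ) : ℤ) = 0 := h2.2
    have h4 : m * j = 0 := by exact_mod_cast h3
    have h5 : 0 < m * j := Nat.mul_pos hm hj
    omega
  have hfin := hC K V d (H * (m + 1)) n' (M ^ (m + 1)) (γ₀ ^ m) (κ₀ * (γ₀ ^ s)⁻¹) hd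
    (by positivity) hMpow hSzγ hSzκ (hmV γ₀ hνγ₀) (by
      rw [map_mul, map_inv₀, map_pow, hνγ₀, one_pow, inv_one, mul_one, hνκ₀]) htor (by
      rw [hn'def, Nat.le_div_iff_mul_le hm]
      exact hn')
  have hγs : γ₀ ^ s ≠ 0 := pow_ne_zero _ hγ0
  have e1 : (γ₀ ^ m) ^ n' - κ₀ * (γ₀ ^ s)⁻¹ = (γ₀ ^ n - κ₀) * (γ₀ ^ s)⁻¹ := by
    have e2 : γ₀ ^ n = (γ₀ ^ m) ^ n' * γ₀ ^ s := by
      conv_lhs => rw [hdiv, pow_add, pow_mul]
    rw [e2, sub_mul, mul_assoc, mul_inv_cancel₀ hγs, mul_one]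
  rw [e1, map_mul, map_inv₀, map_pow, hνγ₀, one_pow, inv_one, mul_one] at hfin
  exact absurd hsmall (not_le.2 hfin)

/-- **No large zeros.** `x y` is not a root of unity and all its conjugates have modulus one, so it
is not integral (`NumberField.Embeddings.pow_eq_one_of_norm_eq_one`), and there is a place with
`|xy| > 1` (`exists_pabs`; `p ∣ A0²`, so `p ≤ 2^(2h)`). If `|x| ≠ |y|`, one term dominates
(factor `≥ 2^n` by `PAbs.gap`). If `|x| = |y| > 1`, then `γ0 = y/x`, `κ0 = -α/β` satisfy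
`ν(γ0^n - κ0) ≤ 2^(-2n) C`; write `n = m n' + s` and apply `padic_gap` to `γ0^m`, `κ0 γ0^-s`, `n'`. -/
theorem no_zero : ∃ C : ℕ, ∀ (K : Type) [Field K] [NumberField K] (d h n A0 : ℕ)
    (x y α α' β β' : K), Module.finrank ℚ K ≤ d → 0 < A0 → A0 ≤ 2 ^ h →
    Sz A0 h x → Sz A0 h y → Sz A0 h α → Sz A0 h α' → Sz A0 h β → Sz A0 h β' →
    α ≠ 0 → β ≠ 0 → α' ≠ 0 → β' ≠ 0 → (∀ τ : K →+* ℂ, ‖τ x‖ = 1 ∧ ‖τ y‖ = 1) →
    (∀ a b : ℤ, x ^ a * y ^ b = 1 → a = 0 ∧ b = 0) → 2 ^ ((2 + d + h) ^ C) ≤ n →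
    α * x ^ n + α' * x⁻¹ ^ n + β * y ^ n + β' * y⁻¹ ^ n ≠ 0 := by
  obtain ⟨C, hC⟩ := padic_gap
  obtain ⟨C', hC'⟩ := nzo_arith C
  refine ⟨C', ?_⟩
  intro K _ _ d h n A0 x y α α' β β' hd hA0 hA0h hx hy hα hα' hβ hβ' hα0 hβ0 _ _ hτ hind hn
  have hnint : ¬ IsIntegral ℤ (x * y) := by
    intro hi
    obtain ⟨j, hj, hj1⟩ := NumberField.Embeddings.pow_eq_one_of_norm_eq_one K ℂ hi (fun τ => by
      rw [map_mul, norm_mul, (hτ τ).1, (hτ τ).2, one_mul])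
    rw [mul_pow] at hj1
    have h1 := (hind j j (by rw [zpow_natCast, zpow_natCast]; exact hj1)).1
    have h2 : j = 0 := by exact_mod_cast h1
    omega
  obtain ⟨V, hV1, m, hm, hmle, hmV⟩ := exists_pabs K (x * y) hnint
  rw [map_mul] at hV1
  have hx0 : 0 < V.ν x := by
    rcases (V.ν.nonneg x).eq_or_lt with h1 | h1
    · rw [← h1, zero_mul] at hV1
      linarith
    · exact h1
  have hy0 : 0 < V.ν y := by
    rcases (V.ν.nonneg y).eq_or_lt with h1 | h1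
    · rw [← h1, mul_zero] at hV1
      linarith
    · exact h1
  -- the prime divides the denominator
  have hpdvd : (V.p : ℤ) ∣ ((A0 * A0 : ℕ) : ℤ) := by
    by_contra hnd
    have h1 := V.coprime _ hnd
    rw [Int.cast_natCast] at h1
    have h2 := V.le_one _ (nzo_int_prod hx.1 hy.1)
    rw [map_mul, h1, one_mul, map_mul] at h2
    linarith
  have hple : V.p ≤ 2 ^ (2 * h) := by
    have h1 : V.p ∣ A0 * A0 := by exact_mod_cast hpdvd
    have h2 : V.p ≤ A0 * A0 := Nat.le_of_dvd (Nat.mul_pos hA0 hA0) h1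
    calc V.p ≤ A0 * A0 := h2
      _ ≤ 2 ^ h * 2 ^ h := Nat.mul_le_mul hA0h hA0h
      _ = 2 ^ (2 * h) := by rw [← pow_add, two_mul]
  have hmle' : m ≤ 2 ^ (4 * h * d) := by
    calc m ≤ V.p ^ (2 * Module.finrank ℚ K) := hmle
      _ ≤ (2 ^ (2 * h)) ^ (2 * Module.finrank ℚ K) := Nat.pow_le_pow_left hple _
      _ ≤ (2 ^ (2 * h)) ^ (2 * d) := Nat.pow_le_pow_right (by positivity) (by omega)
      _ = 2 ^ (4 * h * d) := by
          rw [← pow_mul]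
          congr 1
          ring
  obtain ⟨hn1, hn2⟩ := hC' d h m n hn hmle'
  have hgap : 2 ≤ V.ν x * V.ν y := by
    rw [← map_mul]
    exact V.gap _ (by rw [map_mul]; exact hV1)
  have hdiv : ∀ u v : K, 0 < V.ν v → V.ν v < V.ν u → V.ν v * 2 ≤ V.ν u := by
    intro u v hv huv
    have h1 : 1 < V.ν (u / v) := by
      rw [map_div₀, one_lt_div hv]
      exact huv
    have h2 := V.gap _ h1
    rw [map_div₀, le_div_iff₀ hv] at h2
    linarith
  have hinvle : ∀ u v : K, 0 < V.ν u → 0 < V.ν v → 2 ≤ V.ν u * V.ν v → V.ν v⁻¹ * 2 ≤ V.ν u := by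
    intro u v hu hv h1
    rw [map_inv₀, inv_mul_le_iff₀ hv]
    linarith
  rcases lt_trichotomy (V.ν x) (V.ν y) with hlt | heq | hgt
  · -- `y` dominates
    have hy1 : 1 < V.ν y := by
      by_contra h1
      rw [not_lt] at h1
      have : V.ν x * V.ν y ≤ 1 := mul_le_one₀ (by linarith) hy0.le h1
      linarith
    have hy2 : 2 ≤ V.ν y := V.gap _ hy1
    have h1 := nzo_dom (x := y) (y := x) (α := β) (α' := β') (β := α) (β' := α') V hd hA0 hA0h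
      hβ hβ' hα hα' hβ0 hn1 (hinvle y y hy0 hy0 (by nlinarith)) (hdiv y x hx0 hlt)
      (hinvle y x hy0 hx0 (by linarith)) hy0
    intro h2
    apply h1
    linear_combination h2
  · have hx1 : 1 < V.ν x := by
      by_contra h1
      rw [not_lt] at h1
      have : V.ν x * V.ν y ≤ 1 := mul_le_one₀ h1 hy0.le (by linarith)
      linarith
    exact nzo_eq hC V hd hA0 hA0h hx hy hα hα' hβ hβ' hβ0 hτ hind (V.gap _ hx1) heq hm hmV hn1 hn2
  · have hx1 : 1 < V.ν x := by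
      by_contra h1
      rw [not_lt] at h1
      have : V.ν x * V.ν y ≤ 1 := mul_le_one₀ h1 hy0.le (by linarith)
      linarith
    have hx2 : 2 ≤ V.ν x := V.gap _ hx1
    exact nzo_dom V hd hA0 hA0h hα hα' hβ hβ' hα0 hn1 (hinvle x x hx0 hx0 (by nlinarith))
      (hdiv x y hy0 hgt) (hinvle x y hx0 hy0 hgap) hx0

end Pool.Agent.PGap
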